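import Mathlib

set_option autoImplicit false

open scoped Manifold ContDiff Topology ENNReal
open MeasureTheory Set

namespace Pool.Agent.H361Z.Sol

/-- The model space `ℝ^n`. -/
abbrev Eu (n : ℕ) : Type := EuclideanSpace ℝ (Fin n)

section Coord

variable {n : ℕ}

/-- The `i`-th coordinate vector of `ℝ^n`. -/
noncomputable def ev (i : Fin n) : Eu n := EuclideanSpace.single i 1

/-- Christoffel symbols of the first kind of the metric with coefficients `g z a b` (point `z`,
constant vector fields `a`, `b`): the value of `g(∇_a b, c)` at `y` by the Koszul formula. -/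
noncomputable def koszul (g : Eu n → Eu n → Eu n → ℝ) (y a b c : Eu n) : ℝ :=
  (fderiv ℝ (fun z => g z b c) y a + fderiv ℝ (fun z => g z a c) y b
    - fderiv ℝ (fun z => g z a b) y c) / 2

/-- The curvature `R(a, b) c = ∇_a ∇_b c - ∇_b ∇_a c` at `y` (constant vector fields `a`, `b`, `c`)
of the connection with Christoffel symbols `Γ z a b = (∇_a b)(z)`. -/
noncomputable def riem (Γ : Eu n → Eu n → Eu n → Eu n) (y a b c : Eu n) : Eu n :=
  fderiv ℝ (fun z => Γ z b c) y a - fderiv ℝ (fun z => Γ z a c) y b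
    + Γ y a (Γ y b c) - Γ y b (Γ y a c)

/-- The Ricci curvature `Ric(b, c) = trace (a ↦ R(a, b) c)` at `y`. -/
noncomputable def ricci (Γ : Eu n → Eu n → Eu n → Eu n) (y b c : Eu n) : ℝ :=
  ∑ i, riem Γ y (ev i) b c i

/-- The metric with coefficients `g` satisfies `Ric ≥ K g` at `y`: the Christoffel symbols `Γ` of
its Levi-Civita connection (determined near `y` by the Koszul formula) give
`Ric(b, b) ≥ K g(b, b)` at `y` for every vector `b`. -/
def RicciGEAt (g : Eu n → Eu n → Eu n → ℝ) (K : ℝ) (y : Eu n) : Prop :=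
  ∃ Γ : Eu n → Eu n → Eu n → Eu n, (∀ a b, DifferentiableAt ℝ (fun z => Γ z a b) y) ∧
    (∀ᶠ z in 𝓝 y, ∀ a b c, g z (Γ z a b) c = koszul g z a b c) ∧
    ∀ b, K * g y b b ≤ ricci Γ y b b

end Coord

section Mfd

/-- The smooth Riemannian metrics on the `n`-manifold `M`. -/
abbrev RMetric (n : ℕ) (M : Type) [TopologicalSpace M] [ChartedSpace (Eu n) M]
    [IsManifold (𝓡 n) ∞ M] : Type :=
  Bundle.ContMDiffRiemannianMetric (𝓡 n) ∞ (Eu n) (fun x : M => TangentSpace (𝓡 n) x)

variable {n : ℕ} {M : Type} [TopologicalSpace M] [ChartedSpace (Eu n) M] [IsManifold (𝓡 n) ∞ M]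

/-- The scalar product of `g` on the tangent space at `x` (a copy of the model space). -/
noncomputable def form (g : RMetric n M) (x : M) : Eu n →L[ℝ] Eu n →L[ℝ] ℝ := g.inner x

/-- The differential at `y` of the inverse of the chart at `x`. -/
noncomputable def dchart (x : M) (y : Eu n) : Eu n →L[ℝ] Eu n :=
  mfderiv (𝓡 n) (𝓡 n) (chartAt (Eu n) x).symm y

/-- The coefficients of `g` in the chart at `x`: its value on the coordinate vector fields `a`, `b`
at the point with coordinates `y`. -/
noncomputable def chartCoeff (g : RMetric n M) (x : M) (y a b : Eu n) : ℝ :=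
  form g ((chartAt (Eu n) x).symm y) (dchart x y a) (dchart x y b)

/-- `Ric_g ≥ K g` at every point (computed in the chart there). -/
def RicciGE (g : RMetric n M) (K : ℝ) : Prop :=
  ∀ x : M, RicciGEAt (chartCoeff g x) K (chartAt (Eu n) x x)

/-- `μ` is the Riemannian volume measure of `g`: in every chart it has the density
`√(det g_ij)` with respect to Lebesgue measure. -/
def IsVolume [MeasurableSpace M] (g : RMetric n M) (μ : Measure M) : Prop :=
  ∀ (x : M) (s : Set M), MeasurableSet s → s ⊆ (chartAt (Eu n) x).source →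
    μ s = ∫⁻ y in chartAt (Eu n) x '' s,
      ENNReal.ofReal √(Matrix.of fun i j => chartCoeff g x y (ev i) (ev j)).det

variable (n) in
/-- The differential of a real function at `x`, a linear form on the tangent space. -/
noncomputable def dfun (f : M → ℝ) (x : M) : Eu n →L[ℝ] ℝ := mfderiv (𝓡 n) 𝓘(ℝ, ℝ) f x

/-- The squared length `|∇f|²(x)` of the gradient: the largest value of `df(v)²` over the tangent
vectors `v` at `x` with `g(v, v) ≤ 1`. -/
noncomputable def gradSq (g : RMetric n M) (f : M → ℝ) (x : M) : ℝ :=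
  sSup {r | ∃ v : Eu n, form g x v v ≤ 1 ∧ r = (dfun n f x v) ^ 2}

/-- The eigenvalue `λ_k` of the Laplace-Beltrami operator (`k = 0, 1, 2, …`, listed with
multiplicity) by the min-max formula: the infimum, over the `(k+1)`-dimensional spaces of `C¹`
functions, of the largest Rayleigh quotient `∫ |∇f|² / ∫ f²` on the space. -/
noncomputable def eig [MeasurableSpace M] (g : RMetric n M) (μ : Measure M) (k : ℕ) : ℝ :=
  sInf {r | ∃ f : Fin (k + 1) → M → ℝ, LinearIndependent ℝ f ∧
    (∀ i, ContMDiff (𝓡 n) 𝓘(ℝ, ℝ) 1 (f i)) ∧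
    ∀ a : Fin (k + 1) → ℝ, ∫ x, gradSq g (fun y => ∑ i, a i * f i y) x ∂μ ≤
      r * ∫ x, (∑ i, a i * f i x) ^ 2 ∂μ}

/-- The multiplicity `m_k` of the value `λ_k`: the number of times it occurs in the list. -/
noncomputable def mult [MeasurableSpace M] (g : RMetric n M) (μ : Measure M) (k : ℕ) : ℕ∞ :=
  {i | eig g μ i = eig g μ k}.encard

end Mfd

end Pool.Agent.H361Z.Sol
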