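import Mathlib

set_option autoImplicit false

open MeasureTheory Set Filter
open scoped Topology

namespace Pool.Agent.H361Z.Sol

/-- plateau cut-off: `1` on `[0, T]`, `0` outside `[-1, T+1]` -/
noncomputable def cut (T x : ℝ) : ℝ :=
  Real.smoothTransition (x + 1) * Real.smoothTransition (T + 1 - x)

theorem contDiff_st : ContDiff ℝ 1 Real.smoothTransition := Real.smoothTransition.contDiff

theorem contDiff_cut (T : ℝ) : ContDiff ℝ 1 (cut T) :=
  (contDiff_st.comp (contDiff_id.add contDiff_const)).mul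
    (contDiff_st.comp (contDiff_const.sub contDiff_id))

theorem continuous_cut (T : ℝ) : Continuous (cut T) := (contDiff_cut T).continuous

theorem cut_eq_zero {T x : ℝ} (h : x ∉ Icc (-1) (T + 1)) : cut T x = 0 := by
  rw [mem_Icc, not_and_or, not_le, not_le] at h
  rcases h with h | h
  · rw [cut, Real.smoothTransition.zero_of_nonpos (by linarith), zero_mul]
  · rw [cut, Real.smoothTransition.zero_of_nonpos (x := T + 1 - x) (by linarith), mul_zero]

theorem hasCompactSupport_cut (T : ℝ) : HasCompactSupport (cut T) :=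
  HasCompactSupport.intro isCompact_Icc fun _ hx => cut_eq_zero hx

theorem cut_eq_one {T x : ℝ} (h0 : 0 ≤ x) (h1 : x ≤ T) : cut T x = 1 := by
  rw [cut, Real.smoothTransition.one_of_one_le (by linarith),
    Real.smoothTransition.one_of_one_le (by linarith), mul_one]

theorem cut_nonneg (T x : ℝ) : 0 ≤ cut T x :=
  mul_nonneg (Real.smoothTransition.nonneg _) (Real.smoothTransition.nonneg _)

theorem cut_le_one (T x : ℝ) : cut T x ≤ 1 :=
  mul_le_one₀ (Real.smoothTransition.le_one _) (Real.smoothTransition.nonneg _)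
    (Real.smoothTransition.le_one _)

theorem cut_sq_le_one (T x : ℝ) : cut T x ^ 2 ≤ 1 :=
  pow_le_one₀ (cut_nonneg T x) (cut_le_one T x)

theorem hasDerivAt_st (x : ℝ) :
    HasDerivAt Real.smoothTransition (deriv Real.smoothTransition x) x :=
  (contDiff_st.differentiable one_ne_zero x).hasDerivAt

theorem deriv_cut (T x : ℝ) : deriv (cut T) x =
    deriv Real.smoothTransition (x + 1) * Real.smoothTransition (T + 1 - x)
      - Real.smoothTransition (x + 1) * deriv Real.smoothTransition (T + 1 - x) := by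
  have h1 : HasDerivAt (fun x => Real.smoothTransition (x + 1))
      (deriv Real.smoothTransition (x + 1)) x := (hasDerivAt_st (x + 1)).comp_add_const x 1
  have h2 : HasDerivAt (fun x => Real.smoothTransition (T + 1 - x))
      (-deriv Real.smoothTransition (T + 1 - x)) x :=
    (hasDerivAt_st (T + 1 - x)).comp_const_sub (T + 1) x
  have h3 := (h1.mul h2).deriv
  refine h3.trans ?_
  ring

theorem hasCompactSupport_deriv_st : HasCompactSupport (deriv Real.smoothTransition) := by
  refine HasCompactSupport.intro (isCompact_Icc (a := 0) (b := 1)) fun x hx => ?_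
  rw [mem_Icc, not_and_or, not_le, not_le] at hx
  rcases hx with h | h
  · have : Real.smoothTransition =ᶠ[𝓝 x] fun _ => 0 := by
      filter_upwards [Iio_mem_nhds h] with y hy
      exact Real.smoothTransition.zero_of_nonpos (le_of_lt hy)
    rw [this.deriv_eq, deriv_const]
  · have : Real.smoothTransition =ᶠ[𝓝 x] fun _ => 1 := by
      filter_upwards [Ioi_mem_nhds h] with y hy
      exact Real.smoothTransition.one_of_one_le (le_of_lt hy)
    rw [this.deriv_eq, deriv_const]

theorem continuous_deriv_cut (T : ℝ) : Continuous (deriv (cut T)) :=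
  (contDiff_cut T).continuous_deriv le_rfl

theorem sq_hasCompactSupport {φ : ℝ → ℝ} (h : HasCompactSupport φ) :
    HasCompactSupport (fun x => φ x ^ 2) :=
  h.comp_left (g := fun t : ℝ => t ^ 2) (by simp)

theorem integrable_sq_mul {φ G : ℝ → ℝ} (hφ : Continuous φ) (h : HasCompactSupport φ)
    (hG : Continuous G) : Integrable (fun x => φ x ^ 2 * G x) :=
  ((hφ.pow 2).mul hG).integrable_of_hasCompactSupport (sq_hasCompactSupport h).mul_right

theorem integrable_sq {φ : ℝ → ℝ} (hφ : Continuous φ) (h : HasCompactSupport φ) :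
    Integrable (fun x => φ x ^ 2) :=
  (hφ.pow 2).integrable_of_hasCompactSupport (sq_hasCompactSupport h)

theorem exists_deriv_cut_bound : ∃ C : ℝ, 0 ≤ C ∧ ∀ T, ∫ x, deriv (cut T) x ^ 2 ≤ C := by
  have hc : Continuous (deriv Real.smoothTransition) := contDiff_st.continuous_deriv le_rfl
  have hi : Integrable (fun x => deriv Real.smoothTransition x ^ 2) :=
    integrable_sq hc hasCompactSupport_deriv_st
  refine ⟨4 * ∫ x, deriv Real.smoothTransition x ^ 2, by positivity, fun T => ?_⟩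
  have h1 : Integrable (fun x => deriv Real.smoothTransition (x + 1) ^ 2) := hi.comp_add_right 1
  have h2 : Integrable (fun x => deriv Real.smoothTransition (T + 1 - x) ^ 2) :=
    hi.comp_sub_left (T + 1)
  have e1 : ∫ x, deriv Real.smoothTransition (x + 1) ^ 2 = ∫ x, deriv Real.smoothTransition x ^ 2 :=
    integral_add_right_eq_self (fun x => deriv Real.smoothTransition x ^ 2) 1
  have e2 : ∫ x, deriv Real.smoothTransition (T + 1 - x) ^ 2
      = ∫ x, deriv Real.smoothTransition x ^ 2 :=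
    integral_sub_left_eq_self (fun x => deriv Real.smoothTransition x ^ 2) volume (T + 1)
  calc ∫ x, deriv (cut T) x ^ 2 ≤ ∫ x, (2 * deriv Real.smoothTransition (x + 1) ^ 2
        + 2 * deriv Real.smoothTransition (T + 1 - x) ^ 2) := by
        refine integral_mono (integrable_sq (continuous_deriv_cut T)
          (hasCompactSupport_cut T).deriv) ((h1.const_mul 2).add (h2.const_mul 2)) fun x => ?_
        simp only [deriv_cut]
        have a0 := Real.smoothTransition.nonneg (x + 1)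
        have a1 := Real.smoothTransition.le_one (x + 1)
        have b0 := Real.smoothTransition.nonneg (T + 1 - x)
        have b1 := Real.smoothTransition.le_one (T + 1 - x)
        set A := deriv Real.smoothTransition (x + 1)
        set B := deriv Real.smoothTransition (T + 1 - x)
        set s := Real.smoothTransition (x + 1)
        set t := Real.smoothTransition (T + 1 - x)
        have h3 : t ^ 2 ≤ 1 := pow_le_one₀ b0 b1
        have h4 : s ^ 2 ≤ 1 := pow_le_one₀ a0 a1
        nlinarith [sq_nonneg (A * t + s * B), mul_le_mul_of_nonneg_left h3 (sq_nonneg A),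
          mul_le_mul_of_nonneg_left h4 (sq_nonneg B)]
    _ = _ := by
        rw [integral_add (h1.const_mul 2) (h2.const_mul 2), integral_const_mul, integral_const_mul,
          e1, e2]
        ring

theorem integral_cut_split {D : ℝ → ℝ} (hD : Continuous D) {T : ℝ} (hT : 0 ≤ T) {B : ℝ}
    (hB : ∀ x, |D x| ≤ B) :
    |(∫ x, cut T x ^ 2 * D x) - ∫ x in (0 : ℝ)..T, D x| ≤ 2 * B := by
  have hc : Continuous (fun x => cut T x ^ 2 * D x) := ((continuous_cut T).pow 2).mul hD
  have e1 : ∫ x, cut T x ^ 2 * D x = ∫ x in (-1 : ℝ)..(T + 1), cut T x ^ 2 * D x := by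
    rw [intervalIntegral.integral_of_le (by linarith), ← integral_Icc_eq_integral_Ioc,
      setIntegral_eq_integral_of_forall_compl_eq_zero]
    intro x hx
    rw [cut_eq_zero hx]; ring
  have e2 : ∫ x in (0 : ℝ)..T, cut T x ^ 2 * D x = ∫ x in (0 : ℝ)..T, D x := by
    refine intervalIntegral.integral_congr fun x hx => ?_
    rw [uIcc_of_le hT] at hx
    simp only [cut_eq_one hx.1 hx.2]; ring
  have hb : ∀ x, ‖cut T x ^ 2 * D x‖ ≤ B := by
    intro x
    rw [Real.norm_eq_abs, abs_mul, abs_of_nonneg (sq_nonneg _)]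
    calc cut T x ^ 2 * |D x| ≤ 1 * |D x| :=
          mul_le_mul_of_nonneg_right (cut_sq_le_one T x) (abs_nonneg _)
      _ ≤ B := by rw [one_mul]; exact hB x
  have b1 := intervalIntegral.norm_integral_le_of_norm_le_const (a := -1) (b := 0)
    (f := fun x => cut T x ^ 2 * D x) fun x _ => hb x
  have b2 := intervalIntegral.norm_integral_le_of_norm_le_const (a := T) (b := T + 1)
    (f := fun x => cut T x ^ 2 * D x) fun x _ => hb x
  rw [e1, ← intervalIntegral.integral_add_adjacent_intervals (b := 0) (hc.intervalIntegrable _ _)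
    (hc.intervalIntegrable _ _), ← intervalIntegral.integral_add_adjacent_intervals (a := 0) (b := T)
    (hc.intervalIntegrable _ _) (hc.intervalIntegrable _ _), e2]
  rw [Real.norm_eq_abs] at b1 b2
  norm_num at b1 b2
  rw [abs_le] at b1 b2 ⊢
  constructor <;> linarith [b1.1, b1.2, b2.1, b2.2]

theorem exists_bound_periodic {D : ℝ → ℝ} (hD : Continuous D) {L : ℝ} (hL : 0 < L)
    (hp : Function.Periodic D L) : ∃ B, ∀ x, |D x| ≤ B := by
  obtain ⟨B, hB⟩ := (hp.isBounded_of_continuous hL.ne' hD).exists_norm_le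
  exact ⟨B, fun x => hB _ (mem_range_self x)⟩

theorem folner {D C : ℝ → ℝ} {L : ℝ} (hL : 0 < L) (hD : Continuous D) (hC : Continuous C)
    (pD : Function.Periodic D L) (pC : Function.Periodic C L)
    (h : ∀ T, 0 ≤ T → 0 ≤ (∫ x, cut T x ^ 2 * D x) + ∫ x, deriv (cut T) x ^ 2 * C x) :
    0 ≤ ∫ x in (0 : ℝ)..L, D x := by
  obtain ⟨B, hB⟩ := exists_bound_periodic hD hL pD
  obtain ⟨B', hB'⟩ := exists_bound_periodic hC hL pC
  obtain ⟨K, hK0, hK⟩ := exists_deriv_cut_bound
  have hB0 : 0 ≤ B' := (abs_nonneg _).trans (hB' 0)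
  by_contra hneg
  push Not at hneg
  set d := ∫ x in (0 : ℝ)..L, D x
  obtain ⟨N, hN⟩ := exists_nat_gt ((2 * B + K * B') / (-d))
  have hT : (0 : ℝ) ≤ N * L := by positivity
  have h1 := h _ hT
  have h2 := integral_cut_split hD hT hB
  have h3 : ∫ x in (0 : ℝ)..(N * L), D x = N * d := by
    have := pD.intervalIntegral_add_zsmul_eq (N : ℤ) 0 fun _ _ => hD.intervalIntegrable _ _
    simpa using this
  have h4 : ∫ x, deriv (cut (N * L)) x ^ 2 * C x ≤ K * B' := by
    have hi := integrable_sq (continuous_deriv_cut (N * L)) (hasCompactSupport_cut _).deriv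
    calc ∫ x, deriv (cut (N * L)) x ^ 2 * C x ≤ ∫ x, deriv (cut (N * L)) x ^ 2 * B' :=
          integral_mono (integrable_sq_mul (continuous_deriv_cut _)
            (hasCompactSupport_cut _).deriv hC) (hi.mul_const _) fun x =>
            mul_le_mul_of_nonneg_left ((le_abs_self _).trans (hB' x)) (sq_nonneg _)
      _ ≤ K * B' := by
          rw [integral_mul_const]
          exact mul_le_mul_of_nonneg_right (hK _) hB0
  rw [h3, abs_le] at h2
  rw [div_lt_iff₀ (by linarith)] at hN
  nlinarith [h2.2]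

/-- the potential -/
noncomputable def WW (a s : ℝ) : ℝ := Real.exp (-(2 * a * s)) + Real.exp (2 * a * s)

theorem continuous_WW (a : ℝ) : Continuous (WW a) := by
  unfold WW; fun_prop

theorem two_le_WW (a s : ℝ) : 2 ≤ WW a s := by
  have h1 := Real.add_one_le_exp (-(2 * a * s))
  have h2 := Real.add_one_le_exp (2 * a * s)
  unfold WW; linarith

/-- the energy of a function of one variable -/
noncomputable def en (a ε : ℝ) (φ : ℝ → ℝ) : ℝ :=
  (∫ x, deriv φ x ^ 2) + ε * ∫ x, φ x ^ 2 * WW a x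

/-- Rayleigh quotients -/
def rays (a ε : ℝ) : Set ℝ :=
  {r | ∃ φ : ℝ → ℝ, ContDiff ℝ 1 φ ∧ HasCompactSupport φ ∧ 0 < ∫ x, φ x ^ 2 ∧
    en a ε φ ≤ r * ∫ x, φ x ^ 2}

/-- the ground state energy -/
noncomputable def lam0 (a ε : ℝ) : ℝ := sInf (rays a ε)

theorem le_en {a ε : ℝ} (hε : 0 ≤ ε) {φ : ℝ → ℝ} (h1 : ContDiff ℝ 1 φ) (h2 : HasCompactSupport φ) :
    2 * ε * ∫ x, φ x ^ 2 ≤ en a ε φ := by
  have e1 : 0 ≤ ∫ x, deriv φ x ^ 2 := integral_nonneg fun x => sq_nonneg _
  have e2 : ∫ x, φ x ^ 2 * 2 ≤ ∫ x, φ x ^ 2 * WW a x :=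
    integral_mono ((integrable_sq h1.continuous h2).mul_const _)
      (integrable_sq_mul h1.continuous h2 (continuous_WW a)) fun x =>
      mul_le_mul_of_nonneg_left (two_le_WW a x) (sq_nonneg _)
  rw [integral_mul_const] at e2
  unfold en
  nlinarith

theorem le_of_mem_rays {a ε : ℝ} (hε : 0 ≤ ε) {r : ℝ} (h : r ∈ rays a ε) : 2 * ε ≤ r := by
  obtain ⟨φ, h1, h2, h3, h4⟩ := h
  exact le_of_mul_le_mul_right ((le_en hε h1 h2).trans h4) h3

theorem bddBelow_rays {a ε : ℝ} (hε : 0 ≤ ε) : BddBelow (rays a ε) :=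
  ⟨2 * ε, fun _ h => le_of_mem_rays hε h⟩

theorem le_integral_cut_sq {T : ℝ} (hT : 0 ≤ T) : T ≤ ∫ x, cut T x ^ 2 := by
  have h1 : ∫ x in Ioc 0 T, cut T x ^ 2 = T := by
    rw [setIntegral_congr_fun (g := fun _ => (1 : ℝ)) measurableSet_Ioc fun x hx => by
      simp only [cut_eq_one hx.1.le hx.2, one_pow]]
    simp [hT]
  exact h1.symm.le.trans (setIntegral_le_integral
    (integrable_sq (continuous_cut T) (hasCompactSupport_cut T))
    (Eventually.of_forall fun x => sq_nonneg _))

theorem ratio_mem_rays {a ε : ℝ} {φ : ℝ → ℝ} (h1 : ContDiff ℝ 1 φ) (h2 : HasCompactSupport φ)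
    (h3 : 0 < ∫ x, φ x ^ 2) : en a ε φ / (∫ x, φ x ^ 2) ∈ rays a ε :=
  ⟨φ, h1, h2, h3, by rw [div_mul_cancel₀ _ h3.ne']⟩

theorem rays_nonempty (a ε : ℝ) : (rays a ε).Nonempty :=
  ⟨_, ratio_mem_rays (contDiff_cut 1) (hasCompactSupport_cut 1)
    (one_pos.trans_le (le_integral_cut_sq zero_le_one))⟩

theorem lam0_pos {a ε : ℝ} (hε : 0 < ε) : 0 < lam0 a ε :=
  lt_of_lt_of_le (by positivity)
    (le_csInf (rays_nonempty a ε) fun _ h => le_of_mem_rays hε.le h)

theorem lam0_mul_le {a ε : ℝ} (hε : 0 ≤ ε) {φ : ℝ → ℝ} (h1 : ContDiff ℝ 1 φ)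
    (h2 : HasCompactSupport φ) : lam0 a ε * ∫ x, φ x ^ 2 ≤ en a ε φ := by
  have h0 : 0 ≤ ∫ x, φ x ^ 2 := integral_nonneg fun x => sq_nonneg _
  rcases h0.eq_or_lt with h | h
  · have := le_en (a := a) hε h1 h2
    rw [← h] at this ⊢
    simpa using this
  · have := csInf_le (bddBelow_rays (a := a) hε) (ratio_mem_rays h1 h2 h)
    rwa [le_div_iff₀ h] at this

theorem exists_of_lam0_lt {a ε r : ℝ} (h : lam0 a ε < r) :
    ∃ φ : ℝ → ℝ, ContDiff ℝ 1 φ ∧ HasCompactSupport φ ∧ 0 < ∫ x, φ x ^ 2 ∧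
      en a ε φ ≤ r * ∫ x, φ x ^ 2 := by
  obtain ⟨s, ⟨φ, h1, h2, h3, h4⟩, hs⟩ := exists_lt_of_csInf_lt (rays_nonempty a ε) h
  exact ⟨φ, h1, h2, h3, h4.trans (mul_le_mul_of_nonneg_right hs.le h3.le)⟩

theorem lam0_small (a : ℝ) {η : ℝ} (hη : 0 < η) :
    ∃ ε₀ : ℝ, 0 < ε₀ ∧ ∀ ε, 0 ≤ ε → ε ≤ ε₀ → lam0 a ε ≤ η := by
  obtain ⟨K, hK0, hK⟩ := exists_deriv_cut_bound
  set T := 2 * K / η + 1 with hT
  have hT0 : 0 < T := by positivity
  have h1 := le_integral_cut_sq hT0.le
  set A := ∫ x, cut T x ^ 2 * WW a x with hA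
  have hA0 : 0 ≤ A := integral_nonneg fun x =>
    mul_nonneg (sq_nonneg _) (by linarith [two_le_WW a x])
  refine ⟨η / (A + 1), by positivity, fun ε h0 hε => csInf_le (bddBelow_rays h0)
    ⟨cut T, contDiff_cut T, hasCompactSupport_cut T, hT0.trans_le h1, ?_⟩⟩
  have h2 : ε * A ≤ η := by
    rw [le_div_iff₀ (by positivity)] at hε
    nlinarith
  have h3 : η * T = 2 * K + η := by rw [hT]; field_simp
  have h4 := hK T
  unfold en
  nlinarith [mul_le_mul_of_nonneg_left h1 hη.le]

/-- the shifted form of the variational inequality -/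
theorem lam0_shift {a ε : ℝ} (hε : 0 ≤ ε) {φ Q : ℝ → ℝ} (h1 : ContDiff ℝ 1 φ)
    (h2 : HasCompactSupport φ) (hQ : Continuous Q) (x₀ : ℝ) (h : ∀ x, ε * WW a (x - x₀) ≤ Q x) :
    lam0 a ε * ∫ x, φ x ^ 2 ≤ (∫ x, deriv φ x ^ 2) + ∫ x, φ x ^ 2 * Q x := by
  have h3 := lam0_mul_le (a := a) hε (φ := fun x => φ (x + x₀))
    (h1.comp (contDiff_id.add contDiff_const)) (h2.comp_homeomorph (Homeomorph.addRight x₀))
  unfold en at h3
  have e1 : ∫ x, φ (x + x₀) ^ 2 = ∫ x, φ x ^ 2 := integral_add_right_eq_self (fun x => φ x ^ 2) x₀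
  have e2 : ∫ x, deriv (fun x => φ (x + x₀)) x ^ 2 = ∫ x, deriv φ x ^ 2 := by
    simp only [deriv_comp_add_const]
    exact integral_add_right_eq_self (fun x => deriv φ x ^ 2) x₀
  have e3 : ∫ x, φ (x + x₀) ^ 2 * WW a x = ∫ x, φ x ^ 2 * WW a (x - x₀) := by
    rw [← integral_add_right_eq_self (fun x => φ x ^ 2 * WW a (x - x₀)) x₀]
    simp only [add_sub_cancel_right]
  rw [e1, e2, e3] at h3
  refine h3.trans (add_le_add le_rfl ?_)
  rw [← integral_const_mul]
  refine integral_mono ((integrable_sq_mul (G := fun x => WW a (x - x₀)) h1.continuous h2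
    ((continuous_WW a).comp (continuous_id.sub continuous_const))).const_mul _)
    (integrable_sq_mul h1.continuous h2 hQ) fun x => ?_
  have := mul_le_mul_of_nonneg_left (h x) (sq_nonneg (φ x))
  simp only
  linarith

theorem lam_const {lam : ℝ} {φ Q : ℝ → ℝ} (h1 : ContDiff ℝ 1 φ)
    (h2 : HasCompactSupport φ) (hQ : Continuous Q) (h : ∀ x, lam ≤ Q x) :
    lam * ∫ x, φ x ^ 2 ≤ (∫ x, deriv φ x ^ 2) + ∫ x, φ x ^ 2 * Q x := by
  have e1 : 0 ≤ ∫ x, deriv φ x ^ 2 := integral_nonneg fun x => sq_nonneg _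
  have e2 : ∫ x, φ x ^ 2 * lam ≤ ∫ x, φ x ^ 2 * Q x :=
    integral_mono ((integrable_sq h1.continuous h2).mul_const _)
      (integrable_sq_mul h1.continuous h2 hQ) fun x =>
      mul_le_mul_of_nonneg_left (h x) (sq_nonneg _)
  rw [integral_mul_const] at e2
  linarith

/-- Poincare inequality on an interval -/
theorem poincare {h h' : ℝ → ℝ} {L : ℝ} (hL : 0 < L) (hd : ∀ x, HasDerivAt h (h' x) x)
    (hc : Continuous h') (h0 : ∫ x in (0 : ℝ)..L, h x = 0) :
    ∫ x in (0 : ℝ)..L, h x ^ 2 ≤ L ^ 2 * ∫ x in (0 : ℝ)..L, h' x ^ 2 := by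
  have hh : Continuous h := continuous_iff_continuousAt.2 fun x => (hd x).continuousAt
  obtain ⟨x₀, hx₀, hz⟩ : ∃ x₀ ∈ Icc 0 L, h x₀ = 0 := by
    obtain ⟨x₀, hx₀, hz⟩ := exists_hasDerivAt_eq_slope (fun x => ∫ t in (0 : ℝ)..x, h t) h hL
      (intervalIntegral.continuous_primitive (fun _ _ => hh.intervalIntegrable _ _) 0).continuousOn
      fun x _ => (hh.integral_hasStrictDerivAt 0 x).hasDerivAt
    refine ⟨x₀, Ioo_subset_Icc_self hx₀, ?_⟩
    rw [hz, h0]; simp
  set A := ∫ x in (0 : ℝ)..L, |h' x| with hA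
  set S := ∫ x in (0 : ℝ)..L, h' x ^ 2 with hS
  have hb : ∀ x ∈ Icc 0 L, |h x| ≤ A := by
    intro x hx
    have e : h x = ∫ t in x₀..x, h' t := by
      rw [intervalIntegral.integral_eq_sub_of_hasDerivAt (fun t _ => hd t)
        (hc.intervalIntegrable _ _), hz, sub_zero]
    rw [e, hA, ← Real.norm_eq_abs]
    refine intervalIntegral.norm_integral_le_integral_norm_uIoc.trans ?_
    rw [intervalIntegral.integral_of_le hL.le]
    refine setIntegral_mono_set (hc.norm.integrableOn_Ioc) (Eventually.of_forall fun _ =>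
      norm_nonneg _) (Eventually.of_forall fun t ht => ?_)
    exact ⟨lt_of_le_of_lt (le_min hx₀.1 hx.1) ht.1, ht.2.trans (max_le hx₀.2 hx.2)⟩
  have hcs : A ^ 2 ≤ L * S := by
    have e1 : 0 ≤ ∫ x in (0 : ℝ)..L, (L * |h' x| - A) ^ 2 :=
      intervalIntegral.integral_nonneg hL.le fun x _ => sq_nonneg _
    have e2 : ∫ x in (0 : ℝ)..L, (L * |h' x| - A) ^ 2
        = L ^ 2 * S - 2 * L * A * A + L * A ^ 2 := by
      have e3 : ∀ x, (L * |h' x| - A) ^ 2 = L ^ 2 * h' x ^ 2 - 2 * L * A * |h' x| + A ^ 2 := by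
        intro x; rw [← sq_abs (h' x)]; ring
      simp only [e3]
      rw [intervalIntegral.integral_add, intervalIntegral.integral_sub,
        intervalIntegral.integral_const_mul, intervalIntegral.integral_const_mul,
        intervalIntegral.integral_const]
      · simp [hA, hS]
      all_goals apply Continuous.intervalIntegrable; fun_prop
    rw [e2] at e1
    have e4 : 0 ≤ L * (L * S - A ^ 2) := by nlinarith
    have := nonneg_of_mul_nonneg_right e4 hL
    by_contra hh
    push Not at hh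
    nlinarith
  calc ∫ x in (0 : ℝ)..L, h x ^ 2 ≤ ∫ x in (0 : ℝ)..L, A ^ 2 := by
        refine intervalIntegral.integral_mono_on hL.le ((hh.pow 2).intervalIntegrable _ _)
          (continuous_const.intervalIntegrable _ _) fun x hx => ?_
        rw [← sq_abs]
        exact pow_le_pow_left₀ (abs_nonneg _) (hb x hx) 2
    _ = L * A ^ 2 := by simp
    _ ≤ _ := by nlinarith

/-- unfolding a compactly supported function over the translates of `[0, L]` -/
theorem unfold_sum {G : ℝ → ℝ} (hG : Continuous G) {L R : ℝ} (hL : 0 < L)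
    (hs : ∀ x, R ≤ |x| → G x = 0) (s : ℝ) (S : Finset ℤ)
    (hS : ∀ q : ℤ, q ∉ S → ∀ x ∈ Icc 0 L, R ≤ |x - s - q * L|) :
    ∑ q ∈ S, ∫ x in (0 : ℝ)..L, G (x - s - q * L) = ∫ x, G x := by
  have hi : Integrable G := hG.integrable_of_hasCompactSupport
    (HasCompactSupport.intro (isCompact_Icc (a := -R) (b := R)) fun x hx => hs x (by
      rw [mem_Icc, ← abs_le, not_le] at hx; exact hx.le))
  have h1 := hasSum_integral_iUnion (μ := volume) (f := G)
    (s := fun q : ℤ => Ioc (-s + q • L) (-s + (q + 1) • L)) (fun _ => measurableSet_Ioc)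
    (pairwise_disjoint_Ioc_add_zsmul (-s) L) hi.integrableOn
  rw [iUnion_Ioc_add_zsmul hL, Measure.restrict_univ] at h1
  have h2 : HasSum (fun q : ℤ => ∫ x in (0 : ℝ)..L, G (x - s - q * L)) (∫ x, G x) := by
    rw [← (Equiv.neg ℤ).hasSum_iff] at h1
    refine h1.congr_fun fun q => ?_
    simp only [Function.comp, Equiv.neg_apply, zsmul_eq_mul]
    rw [← intervalIntegral.integral_of_le (by push_cast; linarith)]
    simp only [sub_sub]
    rw [intervalIntegral.integral_comp_sub_right]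
    congr 1 <;> push_cast <;> ring
  refine (hasSum_sum_of_ne_finset_zero fun q hq => ?_).unique h2
  rw [intervalIntegral.integral_congr (g := fun _ => (0 : ℝ)) fun x hx => ?_]
  · simp
  · rw [uIcc_of_le hL.le] at hx
    exact hs _ (hS q hq x hx)

end Pool.Agent.H361Z.Sol
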