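import Mathlib
import Pool.Agent.H361Z.Sol.Defs

set_option autoImplicit false

open MeasureTheory Set Filter
open scoped Topology Manifold ContDiff

namespace Pool.Agent.H361Z.Sol

/-- the ring `ℤ[√2]` -/
abbrev Z2 : Type := Zsqrtd 2

theorem sqrt2_mul : √2 * √2 = (2 : ℝ) := Real.mul_self_sqrt (by norm_num)

theorem sqrt2_pos : (0 : ℝ) < √2 := Real.sqrt_pos.2 (by norm_num)

/-- first real embedding -/
noncomputable def s1 : Z2 →+* ℝ := Zsqrtd.lift ⟨√2, by rw [sqrt2_mul]; norm_num⟩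

/-- second real embedding -/
noncomputable def s2 : Z2 →+* ℝ := Zsqrtd.lift ⟨-√2, by rw [neg_mul_neg, sqrt2_mul]; norm_num⟩

theorem s1_apply (w : Z2) : s1 w = w.re + w.im * √2 := rfl

theorem s2_apply (w : Z2) : s2 w = w.re - w.im * √2 := by
  change (w.re : ℝ) + w.im * (-√2) = _
  ring

theorem s1_mul_s2 (w : Z2) : s1 w * s2 w = (w.norm : ℝ) := by
  rw [s1_apply, s2_apply, Zsqrtd.norm_def]
  push_cast
  linear_combination (-(w.im : ℝ) ^ 2) * sqrt2_mul

theorem one_le_abs_s1_mul_s2 {w : Z2} (h : w ≠ 0) : 1 ≤ |s1 w * s2 w| := by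
  rw [s1_mul_s2]
  have h1 : w.norm ≠ 0 := by
    rw [Ne, Zsqrtd.norm_eq_zero]
    · exact h
    · intro n hn
      have h2 : n ≤ 1 := by nlinarith
      have h3 : -1 ≤ n := by nlinarith
      interval_cases n <;> omega
  exact_mod_cast Int.one_le_abs h1

/-- the unit `3 + 2√2` -/
def UU : Z2ˣ := ⟨⟨3, 2⟩, ⟨3, -2⟩, by decide, by decide⟩

/-- its powers -/
def nu (k : ℤ) : Z2 := ((UU ^ k : Z2ˣ) : Z2)

theorem nu_add (j k : ℤ) : nu (j + k) = nu j * nu k := by simp [nu, zpow_add]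

theorem nu_zero : nu 0 = 1 := by simp [nu]

/-- the logarithm of the unit -/
noncomputable def ell : ℝ := Real.log (3 + 2 * √2)

theorem ell_pos : 0 < ell := Real.log_pos (by linarith [sqrt2_pos])

theorem map_nu (f : Z2 →+* ℝ) (k : ℤ) : f (nu k) = f ⟨3, 2⟩ ^ k := by
  have h := congrArg (fun u : ℝˣ => (u : ℝ)) (map_zpow (Units.map (f : Z2 →* ℝ)) UU k)
  simp only [Units.val_zpow_eq_zpow_val] at h
  exact h

theorem s1_nu (k : ℤ) : s1 (nu k) = Real.exp (k * ell) := by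
  rw [map_nu, s1_apply, mul_comm (k : ℝ), Real.exp_mul, Real.rpow_intCast, ell,
    Real.exp_log (by linarith [sqrt2_pos])]
  norm_num

theorem s2_nu (k : ℤ) : s2 (nu k) = Real.exp (-(k * ell)) := by
  have h : s2 ⟨3, 2⟩ = (s1 ⟨3, 2⟩)⁻¹ := by
    refine eq_inv_of_mul_eq_one_right ?_
    rw [s1_mul_s2, Zsqrtd.norm_def]; norm_num
  rw [Real.exp_neg, ← s1_nu, map_nu, map_nu, h, inv_zpow]

/-- diagonal maps -/
noncomputable def dg (d : Fin 4 → ℝ) : Eu 4 →L[ℝ] Eu 4 :=
  LinearMap.toContinuousLinearMap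
    { toFun := fun v => WithLp.toLp 2 fun i => d i * v i
      map_add' := fun v w => by ext i; simp [mul_add]
      map_smul' := fun c v => by ext i; simp; ring }

@[simp] theorem dg_apply (d : Fin 4 → ℝ) (v : Eu 4) (i : Fin 4) : dg d v i = d i * v i := rfl

/-- the weights of the action of `ℝ` -/
noncomputable def wt (a s : ℝ) : Fin 4 → ℝ := ![1, Real.exp (-(a * s)), Real.exp (a * s), 1]

@[simp] theorem wt_0 (a s : ℝ) : wt a s 0 = 1 := rfl
@[simp] theorem wt_1 (a s : ℝ) : wt a s 1 = Real.exp (-(a * s)) := rfl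
@[simp] theorem wt_2 (a s : ℝ) : wt a s 2 = Real.exp (a * s) := rfl
@[simp] theorem wt_3 (a s : ℝ) : wt a s 3 = 1 := rfl

theorem wt_add (a s t : ℝ) (i : Fin 4) : wt a (s + t) i = wt a s i * wt a t i := by
  fin_cases i <;> simp [← Real.exp_add] <;> ring_nf

theorem wt_zero (a : ℝ) (i : Fin 4) : wt a 0 i = 1 := by
  fin_cases i <;> simp

theorem wt_neg_mul (a s : ℝ) (i : Fin 4) : wt a (-s) i * wt a s i = 1 := by
  rw [← wt_add, neg_add_cancel, wt_zero]

theorem wt_pos (a s : ℝ) (i : Fin 4) : 0 < wt a s i := by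
  fin_cases i <;> simp [Real.exp_pos]

theorem contDiff_wt (a : ℝ) (i : Fin 4) {k : WithTop ℕ∞} : ContDiff ℝ k (fun s => wt a s i) := by
  fin_cases i <;> simp <;> fun_prop

/-- the product of the group `Sol × ℝ` -/
noncomputable def ml (a : ℝ) (p q : Eu 4) : Eu 4 := p + dg (wt a (p 0)) q

theorem ml_apply (a : ℝ) (p q : Eu 4) (i : Fin 4) :
    ml a p q i = p i + wt a (p 0) i * q i := rfl

theorem ml_0 (a : ℝ) (p q : Eu 4) : ml a p q 0 = p 0 + q 0 := by simp [ml_apply]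

/-- the inverse in the group -/
noncomputable def iv (a : ℝ) (p : Eu 4) : Eu 4 := -dg (wt a (-(p 0))) p

theorem iv_apply (a : ℝ) (p : Eu 4) (i : Fin 4) : iv a p i = -(wt a (-(p 0)) i * p i) := rfl

theorem iv_0 (a : ℝ) (p : Eu 4) : iv a p 0 = -p 0 := by simp [iv_apply]

theorem ml_assoc (a : ℝ) (p q r : Eu 4) : ml a (ml a p q) r = ml a p (ml a q r) := by
  ext i
  rw [ml_apply, ml_0, wt_add, ml_apply, ml_apply, ml_apply]
  ring

theorem ml_zero (a : ℝ) (p : Eu 4) : ml a p 0 = p := by simp [ml]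

theorem zero_ml (a : ℝ) (p : Eu 4) : ml a 0 p = p := by
  ext i; simp [ml_apply, wt_zero]

theorem iv_ml (a : ℝ) (p : Eu 4) : ml a (iv a p) p = 0 := by
  ext i; simp [ml_apply, iv_apply]

theorem ml_iv (a : ℝ) (p : Eu 4) : ml a p (iv a p) = 0 := by
  ext i
  rw [ml_apply, iv_apply]
  have := wt_neg_mul a (p 0) i
  simp only [PiLp.zero_apply]
  linear_combination (-p i) * this

theorem iv_ml_ml (a : ℝ) (p q : Eu 4) : ml a (iv a p) (ml a p q) = q := by
  rw [← ml_assoc, iv_ml, zero_ml]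

theorem ml_iv_ml (a : ℝ) (p q : Eu 4) : ml a p (ml a (iv a p) q) = q := by
  rw [← ml_assoc, ml_iv, zero_ml]

theorem hasFDerivAt_ml (a : ℝ) (p q : Eu 4) : HasFDerivAt (ml a p) (dg (wt a (p 0))) q :=
  (dg (wt a (p 0))).hasFDerivAt.const_add p

theorem contDiff_ml (a : ℝ) (p : Eu 4) {k : WithTop ℕ∞} : ContDiff ℝ k (ml a p) :=
  contDiff_const.add (dg (wt a (p 0))).contDiff

theorem continuous_ml (a : ℝ) (p : Eu 4) : Continuous (ml a p) := (contDiff_ml a p (k := 0)).continuous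

/-- left multiplication as a homeomorphism -/
noncomputable def mlH (a : ℝ) (p : Eu 4) : Eu 4 ≃ₜ Eu 4 where
  toFun := ml a p
  invFun := ml a (iv a p)
  left_inv := iv_ml_ml a p
  right_inv := ml_iv_ml a p
  continuous_toFun := continuous_ml a p
  continuous_invFun := continuous_ml a _

/-- the parameters of the lattice -/
structure Par where
  /-- curvature scale -/
  a : ℝ
  /-- size of the two-dimensional fibre -/
  c : ℝ
  /-- length of the short circle -/
  δ : ℝ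
  /-- the power of the unit -/
  n : ℕ
  ha : 0 < a
  hc : 0 < c
  hδ : 0 < δ
  hn : 0 < n

namespace Par

variable (P : Par)

/-- elementary shift -/
noncomputable def τ : ℝ := ell / P.a

/-- length of the base circle -/
noncomputable def L : ℝ := P.n * P.τ

theorem τ_pos : 0 < P.τ := div_pos ell_pos P.ha

theorem L_pos : 0 < P.L := mul_pos (Nat.cast_pos.2 P.hn) P.τ_pos

theorem a_τ : P.a * P.τ = ell := by rw [τ]; field_simp [P.ha.ne']

theorem a_L : P.a * P.L = P.n * ell := by rw [L, ← P.a_τ]; ring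

end Par

/-- the lattice -/
@[ext] structure Gam (P : Par) where
  /-- winding around the base -/
  k : ℤ
  /-- translation in the fibre -/
  w : Z2
  /-- winding around the short circle -/
  m : ℤ

variable {P : Par}

instance : Mul (Gam P) := ⟨fun γ γ' => ⟨γ.k + γ'.k, γ.w + nu (-(P.n * γ.k)) * γ'.w, γ.m + γ'.m⟩⟩
instance : One (Gam P) := ⟨⟨0, 0, 0⟩⟩
instance : Inv (Gam P) := ⟨fun γ => ⟨-γ.k, -(nu (P.n * γ.k) * γ.w), -γ.m⟩⟩

theorem mul_def (γ γ' : Gam P) :
    γ * γ' = ⟨γ.k + γ'.k, γ.w + nu (-(P.n * γ.k)) * γ'.w, γ.m + γ'.m⟩ := rfl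
theorem one_def : (1 : Gam P) = ⟨0, 0, 0⟩ := rfl
theorem inv_def (γ : Gam P) : γ⁻¹ = ⟨-γ.k, -(nu (P.n * γ.k) * γ.w), -γ.m⟩ := rfl

instance : Group (Gam P) := Group.ofLeftAxioms
  (fun x y z => by
    simp only [mul_def, Gam.mk.injEq]
    refine ⟨add_assoc _ _ _, ?_, add_assoc _ _ _⟩
    rw [mul_add (P.n : ℤ), neg_add, nu_add]; ring)
  (fun x => by simp [mul_def, one_def, nu_zero])
  (fun x => by simp [mul_def, one_def, inv_def])

instance : Countable (Gam P) :=
  Function.Injective.countable (f := fun γ : Gam P => (γ.k, γ.w.re, γ.w.im, γ.m)) fun x y h => by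
    simp only [Prod.mk.injEq] at h
    exact Gam.ext h.1 (Zsqrtd.ext h.2.1 h.2.2.1) h.2.2.2

/-- the embedding of the lattice in the group -/
noncomputable def emb (γ : Gam P) : Eu 4 :=
  !₂[γ.k * P.L, P.c * s1 γ.w, P.c * s2 γ.w, P.δ * γ.m]

theorem emb_0 (γ : Gam P) : emb γ 0 = γ.k * P.L := rfl
theorem emb_1 (γ : Gam P) : emb γ 1 = P.c * s1 γ.w := rfl
theorem emb_2 (γ : Gam P) : emb γ 2 = P.c * s2 γ.w := rfl
theorem emb_3 (γ : Gam P) : emb γ 3 = P.δ * γ.m := rfl

theorem wt_kL_1 (k : ℤ) : Real.exp (-(P.a * (k * P.L))) = s1 (nu (-(P.n * k))) := by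
  rw [s1_nu]; congr 1; push_cast; linear_combination (-(k : ℝ)) * P.a_L

theorem wt_kL_2 (k : ℤ) : Real.exp (P.a * (k * P.L)) = s2 (nu (-(P.n * k))) := by
  rw [s2_nu]; congr 1; push_cast; linear_combination (k : ℝ) * P.a_L

theorem emb_mul (γ γ' : Gam P) : emb (γ * γ') = ml P.a (emb γ) (emb γ') := by
  ext i
  rw [ml_apply, emb_0]
  fin_cases i
  · simp [emb_0, mul_def]; ring
  · simp [emb_1, mul_def, wt_kL_1]; ring
  · simp [emb_2, mul_def, wt_kL_2]; ring
  · simp [emb_3, mul_def]; ring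

theorem emb_one : emb (1 : Gam P) = 0 := by
  ext i
  fin_cases i <;> simp [emb, one_def]

noncomputable instance : MulAction (Gam P) (Eu 4) where
  smul γ p := ml P.a (emb γ) p
  one_smul p := by change ml P.a (emb 1) p = p; rw [emb_one, zero_ml]
  mul_smul γ γ' p := by
    change ml P.a (emb (γ * γ')) p = ml P.a (emb γ) (ml P.a (emb γ') p)
    rw [emb_mul, ml_assoc]

theorem smul_def (γ : Gam P) (p : Eu 4) : γ • p = ml P.a (emb γ) p := rfl

theorem smul_ml (γ : Gam P) (p q : Eu 4) : γ • ml P.a p q = ml P.a (γ • p) q := by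
  rw [smul_def, smul_def, ml_assoc]

theorem smul_0 (γ : Gam P) (p : Eu 4) : (γ • p) 0 = γ.k * P.L + p 0 := by
  rw [smul_def, ml_0, emb_0]

theorem smul_1 (γ : Gam P) (p : Eu 4) :
    (γ • p) 1 = P.c * s1 γ.w + s1 (nu (-(P.n * γ.k))) * p 1 := by
  rw [smul_def, ml_apply, emb_0, emb_1, wt_1, wt_kL_1]

theorem smul_2 (γ : Gam P) (p : Eu 4) :
    (γ • p) 2 = P.c * s2 γ.w + s2 (nu (-(P.n * γ.k))) * p 2 := by
  rw [smul_def, ml_apply, emb_0, emb_2, wt_2, wt_kL_2]

theorem smul_3 (γ : Gam P) (p : Eu 4) : (γ • p) 3 = P.δ * γ.m + p 3 := by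
  rw [smul_def, ml_apply, emb_3, wt_3, one_mul]

instance : ContinuousConstSMul (Gam P) (Eu 4) := ⟨fun γ => continuous_ml _ _⟩

theorem abs_coord_le (p : Eu 4) (i : Fin 4) : |p i| ≤ ‖p‖ := by
  simpa using PiLp.norm_apply_le p i

theorem int_abs_le {k : ℤ} {x B : ℝ} (hx : 0 < x) (h : |k * x| ≤ B) : k ∈ Icc (-⌈B / x⌉) ⌈B / x⌉ := by
  rw [abs_mul, abs_of_pos hx, ← le_div_iff₀ hx] at h
  have h1 : |(k : ℝ)| ≤ (⌈B / x⌉ : ℤ) := h.trans (Int.le_ceil _)
  rw [mem_Icc, ← abs_le]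
  exact_mod_cast h1

instance : ProperlyDiscontinuousSMul (Gam P) (Eu 4) := by
  refine ⟨fun {K K'} hK hK' => ?_⟩
  have hc : Continuous fun q : Eu 4 × Eu 4 => ml P.a q.1 (iv P.a q.2) := by
    refine (PiLp.continuous_toLp 2 _).comp (f := fun q : Eu 4 × Eu 4 =>
      fun i => ml P.a q.1 (iv P.a q.2) i) (continuous_pi fun i => ?_)
    simp only [ml_apply, iv_apply]
    have := (contDiff_wt P.a i (k := 0)).continuous
    fun_prop
  obtain ⟨B, hB⟩ := ((hK'.prod hK).image hc).isBounded.exists_norm_le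
  set N := ⌈2 * B / (2 * P.c)⌉
  set N' := ⌈2 * B / (2 * P.c * √2)⌉
  refine Finite.of_finite_image (f := fun γ : Gam P => (γ.k, γ.w.re, γ.w.im, γ.m))
    (((finite_Icc (-⌈B / P.L⌉) ⌈B / P.L⌉).prod ((finite_Icc (-N) N).prod
      ((finite_Icc (-N') N').prod (finite_Icc (-⌈B / P.δ⌉) ⌈B / P.δ⌉)))).subset ?_) ?_
  · rintro _ ⟨γ, ⟨_, ⟨p, hp, rfl⟩, hq⟩, rfl⟩
    have h1 : ‖emb γ‖ ≤ B := by
      refine hB _ ⟨(γ • p, p), ⟨hq, hp⟩, ?_⟩
      simp only [smul_def, ml_assoc, ml_iv, ml_zero]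
    have h0 := (abs_coord_le (emb γ) 0).trans h1
    have h2 := (abs_coord_le (emb γ) 1).trans h1
    have h3 := (abs_coord_le (emb γ) 2).trans h1
    have h4 := (abs_coord_le (emb γ) 3).trans h1
    rw [emb_0] at h0
    rw [emb_1, s1_apply, abs_le] at h2
    rw [emb_2, s2_apply, abs_le] at h3
    rw [emb_3, mul_comm] at h4
    have := P.hc
    have := sqrt2_pos
    refine ⟨int_abs_le P.L_pos h0, int_abs_le (by positivity) ?_, int_abs_le (by positivity) ?_,
      int_abs_le P.hδ h4⟩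
    · rw [abs_le]; constructor <;> linarith [h2.1, h2.2, h3.1, h3.2]
    · rw [abs_le]; constructor <;> linarith [h2.1, h2.2, h3.1, h3.2]
  · intro x _ y _ h
    simp only [Prod.mk.injEq] at h
    exact Gam.ext h.1 (Zsqrtd.ext h.2.1 h.2.2.1) h.2.2.2

/-- the closed manifold -/
def MM (P : Par) : Type := Quotient (MulAction.orbitRel (Gam P) (Eu 4))

variable (P)

instance : TopologicalSpace (MM P) :=
  inferInstanceAs (TopologicalSpace (Quotient (MulAction.orbitRel (Gam P) (Eu 4))))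

instance : T2Space (MM P) :=
  inferInstanceAs (T2Space (Quotient (MulAction.orbitRel (Gam P) (Eu 4))))

instance : ConnectedSpace (MM P) :=
  inferInstanceAs (ConnectedSpace (Quotient (MulAction.orbitRel (Gam P) (Eu 4))))

/-- the projection -/
noncomputable def pr (p : Eu 4) : MM P := Quotient.mk (MulAction.orbitRel (Gam P) (Eu 4)) p

theorem isOpenQuotientMap_pr : IsOpenQuotientMap (pr P) :=
  MulAction.isOpenQuotientMap_quotientMk (Γ := Gam P) (T := Eu 4)

theorem continuous_pr : Continuous (pr P) := (isOpenQuotientMap_pr P).continuous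

theorem pr_eq_iff {p q : Eu 4} : pr P p = pr P q ↔ ∃ γ : Gam P, γ • q = p :=
  Quotient.eq

variable {P} in
theorem pr_smul (γ : Gam P) (p : Eu 4) : pr P (γ • p) = pr P p := (pr_eq_iff P).2 ⟨γ, rfl⟩

/-- the target of the charts -/
def TT : Set (Eu 4) := {y | |y 0| < P.L / 2 ∧ |y 1| < P.c / 2 ∧ |y 2| < P.c / 2 ∧ |y 3| < P.δ / 2}

theorem isOpen_TT : IsOpen (TT P) := by
  have h : ∀ (i : Fin 4) (r : ℝ), IsOpen {y : Eu 4 | |y i| < r} := fun i r =>
    isOpen_lt (by fun_prop) continuous_const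
  exact (h 0 _).inter ((h 1 _).inter ((h 2 _).inter (h 3 _)))

theorem zero_mem_TT : (0 : Eu 4) ∈ TT P := by
  simp [TT, P.L_pos, P.hc, P.hδ]

theorem int_eq_zero {k : ℤ} {x : ℝ} (hx : 0 < x) (h : |k * x| < x) : k = 0 := by
  rw [abs_mul, abs_of_pos hx] at h
  have h1 : |(k : ℝ)| < 1 := by nlinarith
  exact Int.abs_lt_one_iff.1 (by exact_mod_cast h1)

variable {P} in
theorem eq_one_of_TT {u y y' : Eu 4} (hy : y ∈ TT P) (hy' : y' ∈ TT P) {γ : Gam P}
    (h : γ • ml P.a u y = ml P.a u y') : γ = 1 := by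
  obtain ⟨a0, a1, a2, a3⟩ := hy
  obtain ⟨b0, b1, b2, b3⟩ := hy'
  have h0 := congrArg (fun p : Eu 4 => p 0) h
  have h1 := congrArg (fun p : Eu 4 => p 1) h
  have h2 := congrArg (fun p : Eu 4 => p 2) h
  have h3 := congrArg (fun p : Eu 4 => p 3) h
  simp only [smul_0, smul_1, smul_2, smul_3, ml_apply, wt_0, wt_1, wt_2, wt_3] at h0 h1 h2 h3
  rw [abs_lt] at a0 a3 b0 b3
  have hk : γ.k = 0 := int_eq_zero P.L_pos (by rw [abs_lt]; constructor <;> linarith)
  have hm : γ.m = 0 := int_eq_zero P.hδ (by rw [abs_lt]; constructor <;> linarith)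
  have hw : γ.w = 0 := by
    by_contra hw
    have e0 := one_le_abs_s1_mul_s2 hw
    rw [hk, mul_zero, neg_zero, nu_zero, map_one] at h1 h2
    have e1 : P.c * s1 γ.w = Real.exp (-(P.a * u 0)) * (y' 1 - y 1) := by linarith
    have e2 : P.c * s2 γ.w = Real.exp (P.a * u 0) * (y' 2 - y 2) := by linarith
    have e3 : P.c ^ 2 * (s1 γ.w * s2 γ.w) = (y' 1 - y 1) * (y' 2 - y 2) := by
      have : Real.exp (-(P.a * u 0)) * Real.exp (P.a * u 0) = 1 := by
        rw [← Real.exp_add]; simp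
      calc _ = (P.c * s1 γ.w) * (P.c * s2 γ.w) := by ring
        _ = _ := by rw [e1, e2]; linear_combination ((y' 1 - y 1) * (y' 2 - y 2)) * this
    have e4 : |y' 1 - y 1| < P.c := (abs_sub _ _).trans_lt (by linarith)
    have e5 : |y' 2 - y 2| < P.c := (abs_sub _ _).trans_lt (by linarith)
    have e6 := congrArg abs e3
    rw [abs_mul, abs_mul (y' 1 - y 1), abs_of_nonneg (sq_nonneg _)] at e6
    have e7 := mul_lt_mul'' e4 e5 (abs_nonneg _) (abs_nonneg _)
    nlinarith [P.hc]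
  exact Gam.ext hk hw hm

/-- the inverse chart -/
noncomputable def psi (u y : Eu 4) : MM P := pr P (ml P.a u y)

theorem injOn_psi (u : Eu 4) : InjOn (psi P u) (TT P) := by
  intro y hy y' hy' h
  obtain ⟨γ, h⟩ := (pr_eq_iff P).1 h
  have h1 := eq_one_of_TT hy' hy h
  rw [h1, one_smul] at h
  exact ((mlH P.a u).injective h).symm

theorem continuous_psi (u : Eu 4) : Continuous (psi P u) :=
  (continuous_pr P).comp (continuous_ml _ u)

/-- the chart centred at the image of `u` -/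
noncomputable def chart (u : Eu 4) : OpenPartialHomeomorph (MM P) (Eu 4) :=
  (OpenPartialHomeomorph.ofContinuousOpen ((injOn_psi P u).toPartialEquiv _ _)
    (continuous_psi P u).continuousOn
    ((isOpenQuotientMap_pr P).isOpenMap.comp (mlH P.a u).isOpenMap) (isOpen_TT P)).symm

theorem chart_symm (u : Eu 4) : ⇑(chart P u).symm = psi P u := rfl

theorem chart_target (u : Eu 4) : (chart P u).target = TT P := rfl

theorem chart_source (u : Eu 4) : (chart P u).source = psi P u '' TT P := rfl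

theorem chart_psi (u : Eu 4) {y : Eu 4} (hy : y ∈ TT P) :
    chart P u (psi P u y) = y := (chart P u).right_inv hy

variable {P} in
theorem psi_iv (u p : Eu 4) (γ : Gam P) : psi P u (ml P.a (iv P.a u) (γ • p)) = pr P p := by
  rw [psi, ml_iv_ml, pr_smul]

variable {P} in
theorem chart_pr (u p : Eu 4) {γ : Gam P} (h : ml P.a (iv P.a u) (γ • p) ∈ TT P) :
    chart P u (pr P p) = ml P.a (iv P.a u) (γ • p) := by
  rw [← psi_iv u p γ, chart_psi P u h]

theorem pr_mem_source (u p : Eu 4) :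
    pr P p ∈ (chart P u).source ↔ ∃ γ : Gam P, ml P.a (iv P.a u) (γ • p) ∈ TT P := by
  rw [chart_source]
  constructor
  · rintro ⟨y, hy, h⟩
    obtain ⟨γ, h⟩ := (pr_eq_iff P).1 h
    exact ⟨γ, by rw [h, iv_ml_ml]; exact hy⟩
  · rintro ⟨γ, h⟩
    exact ⟨_, h, psi_iv u p γ⟩

/-- a lift of a point -/
noncomputable def lft (x : MM P) : Eu 4 := ((isOpenQuotientMap_pr P).surjective x).choose

theorem pr_lft (x : MM P) : pr P (lft P x) = x := ((isOpenQuotientMap_pr P).surjective x).choose_spec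

theorem psi_zero (u : Eu 4) : psi P u 0 = pr P u := by rw [psi, ml_zero]

noncomputable instance : ChartedSpace (Eu 4) (MM P) where
  atlas := range (chart P)
  chartAt x := chart P (lft P x)
  mem_chart_source x := ⟨0, zero_mem_TT P, by rw [psi_zero, pr_lft]⟩
  chart_mem_atlas _ := mem_range_self _

theorem chartAt_eq (x : MM P) : chartAt (Eu 4) x = chart P (lft P x) := rfl

theorem chartAt_self (x : MM P) : chartAt (Eu 4) x x = 0 := by
  have := chart_psi P (lft P x) (zero_mem_TT P)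
  rwa [psi_zero, pr_lft] at this

section Local

variable {F : Type} [NormedAddCommGroup F] [NormedSpace ℝ F]

theorem chart_comp_eventuallyEq (u : Eu 4) {f : F → Eu 4} {t : F} (hf : ContinuousAt f t)
    {γ : Gam P} (h : ml P.a (iv P.a u) (γ • f t) ∈ TT P) :
    (fun s => chart P u (pr P (f s))) =ᶠ[𝓝 t] fun s => ml P.a (iv P.a u) (γ • f s) := by
  have h1 : ContinuousAt (fun s => ml P.a (iv P.a u) (γ • f s)) t :=
    (continuous_ml _ _).continuousAt.comp ((continuous_ml _ _).continuousAt.comp hf)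
  filter_upwards [h1.eventually_mem ((isOpen_TT P).mem_nhds h)] with s hs
  exact chart_pr u (f s) hs

theorem contDiffAt_chart_comp {k : WithTop ℕ∞} (u : Eu 4) {f : F → Eu 4} {t : F}
    (hf : ContDiffAt ℝ k f t) (h : pr P (f t) ∈ (chart P u).source) :
    ContDiffAt ℝ k (fun s => chart P u (pr P (f s))) t := by
  obtain ⟨γ, h⟩ := (pr_mem_source P u _).1 h
  refine ContDiffAt.congr_of_eventuallyEq ?_ (chart_comp_eventuallyEq P u hf.continuousAt h)
  exact (contDiff_ml _ _).contDiffAt.comp t ((contDiff_ml _ _).contDiffAt.comp t hf)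

end Local

instance : IsManifold (𝓡 4) ∞ (MM P) := by
  apply isManifold_of_contDiffOn
  rintro _ _ ⟨u, rfl⟩ ⟨u', rfl⟩ y hy
  simp only [modelWithCornersSelf_coe, modelWithCornersSelf_coe_symm, Function.comp_id,
    Function.id_comp, preimage_id_eq, id_eq, range_id, inter_univ] at hy ⊢
  apply ContDiffAt.contDiffWithinAt
  exact contDiffAt_chart_comp P u' (f := ml P.a u) (contDiff_ml _ _).contDiffAt hy.2

end Pool.Agent.H361Z.Sol
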