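import Mathlib
import Pool.Agent.H361Z.Sol.Grp

set_option autoImplicit false
set_option maxSynthPendingDepth 3

open MeasureTheory Set Filter Bundle
open scoped Topology Manifold ContDiff RealInnerProductSpace Bundle

namespace Pool.Agent.H361Z.Sol

variable (P : Par)

section Local

variable {F : Type} [NormedAddCommGroup F] [NormedSpace ℝ F]

theorem contMDiffAt_pr_comp {k : WithTop ℕ∞} {f : F → Eu 4} {t : F} (hf : ContDiffAt ℝ k f t) :
    ContMDiffAt 𝓘(ℝ, F) (𝓡 4) k (fun s => pr P (f s)) t := by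
  rw [contMDiffAt_iff]
  refine ⟨(continuous_pr P).continuousAt.comp hf.continuousAt, ?_⟩
  simp only [mfld_simps]
  apply ContDiffAt.contDiffWithinAt
  exact contDiffAt_chart_comp P _ hf (mem_chart_source (Eu 4) (pr P (f t)))

theorem key_mfderiv {f : F → Eu 4} {t : F} {D : F →L[ℝ] Eu 4} (hf : HasFDerivAt f D t) :
    HasMFDerivAt 𝓘(ℝ, F) (𝓡 4) (fun s => pr P (f s)) t (dg (wt P.a (-(f t 0))) ∘L D) := by
  set u := lft P (pr P (f t)) with hu
  obtain ⟨γ, h⟩ := (pr_eq_iff P).1 (pr_lft P (pr P (f t)))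
  rw [← hu] at h
  have hnear : ml P.a (iv P.a u) (γ • f t) ∈ TT P := by
    rw [h, iv_ml]; exact zero_mem_TT P
  refine ⟨(continuous_pr P).continuousAt.comp hf.continuousAt, ?_⟩
  simp only [writtenInExtChartAt, mfld_simps]
  rw [hasFDerivWithinAt_univ]
  have h1 : HasFDerivAt (fun s => ml P.a (iv P.a (f t)) (f s)) (dg (wt P.a (-(f t 0))) ∘L D) t := by
    have := (hasFDerivAt_ml P.a (iv P.a (f t)) (f t)).comp t hf
    rwa [iv_0] at this
  refine h1.congr_of_eventuallyEq ((chart_comp_eventuallyEq P u hf.continuousAt hnear).trans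
    (Eventually.of_forall fun s => ?_))
  have h2 : γ • f s = ml P.a u (ml P.a (iv P.a (f t)) (f s)) := by
    rw [← h, ← smul_ml, ml_iv_ml]
  simp only [h2, iv_ml_ml]

end Local

theorem hasMFDerivAt_psi (u y : Eu 4) :
    HasMFDerivAt (𝓡 4) (𝓡 4) (psi P u) y (dg (wt P.a (-(y 0)))) := by
  have h := key_mfderiv P (hasFDerivAt_ml P.a u y)
  refine h.congr_mfderiv ?_
  refine ContinuousLinearMap.ext fun v => ?_
  change dg _ (dg _ v) = dg _ v
  ext i
  rw [dg_apply, dg_apply, dg_apply, ← mul_assoc, ← wt_add, ml_0]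
  congr 2; ring

/-- the metric of `Sol × ℝ` -/
noncomputable def GG (a : ℝ) (y b d : Eu 4) : ℝ :=
  b 0 * d 0 + Real.exp (2 * a * y 0) * (b 1 * d 1) + Real.exp (-(2 * a * y 0)) * (b 2 * d 2)
    + b 3 * d 3

theorem inner_Eu4 (b d : Eu 4) : ⟪b, d⟫ = b 0 * d 0 + b 1 * d 1 + b 2 * d 2 + b 3 * d 3 := by
  simp [PiLp.inner_apply, Fin.sum_univ_four]; ring

theorem inner_dg (a : ℝ) (y b d : Eu 4) :
    ⟪dg (wt a (-(y 0))) b, dg (wt a (-(y 0))) d⟫ = GG a y b d := by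
  rw [inner_Eu4, GG]
  simp only [dg_apply, wt_0, wt_1, wt_2, wt_3]
  have e1 : Real.exp (2 * a * y 0) = Real.exp (-(a * -y 0)) * Real.exp (-(a * -y 0)) := by
    rw [← Real.exp_add]; congr 1; ring
  have e2 : Real.exp (-(2 * a * y 0)) = Real.exp (a * -y 0) * Real.exp (a * -y 0) := by
    rw [← Real.exp_add]; congr 1; ring
  rw [e1, e2]; ring

theorem inner_mfderiv_psi (u y b d : Eu 4) :
    @inner ℝ (Eu 4) _ (mfderiv (𝓡 4) (𝓡 4) (psi P u) y b) (mfderiv (𝓡 4) (𝓡 4) (psi P u) y d)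
      = GG P.a y b d := by
  rw [(hasMFDerivAt_psi P u y).mfderiv]
  exact inner_dg P.a y b d

/-- the inner product as a bilinear map -/
noncomputable def ipL : Eu 4 →L[ℝ] Eu 4 →L[ℝ] ℝ := innerSL ℝ

@[simp] theorem ipL_apply (a b : Eu 4) : ipL a b = ⟪a, b⟫ := rfl

/-- coordinate projections -/
noncomputable def pj (i : Fin 4) : Eu 4 →L[ℝ] ℝ := EuclideanSpace.proj i

@[simp] theorem pj_apply (i : Fin 4) (v : Eu 4) : pj i v = v i := rfl

/-- the metric as a bilinear form -/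
noncomputable def GB (a : ℝ) (y : Eu 4) : Eu 4 →L[ℝ] Eu 4 →L[ℝ] ℝ :=
  (pj 0).smulRight (pj 0) + Real.exp (2 * a * y 0) • (pj 1).smulRight (pj 1)
    + Real.exp (-(2 * a * y 0)) • (pj 2).smulRight (pj 2) + (pj 3).smulRight (pj 3)

theorem GB_apply (a : ℝ) (y b d : Eu 4) : GB a y b d = GG a y b d := by
  simp [GB, GG]

theorem contDiff_GB (a : ℝ) : ContDiff ℝ ∞ (GB a) := by
  unfold GB
  have h1 : ContDiff ℝ ∞ (fun y : Eu 4 => 2 * a * y 0) := contDiff_const.mul (pj 0).contDiff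
  exact ((contDiff_const.add (h1.exp.smul contDiff_const)).add
    (h1.neg.exp.smul contDiff_const)).add contDiff_const

theorem symm_triv {x₀ z : MM P} (hz : z ∈ (chartAt (Eu 4) x₀).source)
    (v : Eu 4) : ((trivializationAt (Eu 4) (TangentSpace (𝓡 4)) x₀).symm z v : Eu 4)
      = (mfderiv (𝓡 4) (𝓡 4) (psi P (lft P x₀)) (chartAt (Eu 4) x₀ z) v : Eu 4) := by
  have h1 := TangentBundle.symmL_trivializationAt (I := 𝓡 4) (x₀ := x₀) (x := z) hz
  have h3 : mfderivWithin (𝓡 4) (𝓡 4) (extChartAt (𝓡 4) x₀).symm (range (𝓡 4))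
      (extChartAt (𝓡 4) x₀ z) = mfderiv (𝓡 4) (𝓡 4) (extChartAt (𝓡 4) x₀).symm
      (extChartAt (𝓡 4) x₀ z) := by
    rw [ModelWithCorners.range_eq_univ, mfderivWithin_univ]
  have h2 : ((trivializationAt (Eu 4) (TangentSpace (𝓡 4)) x₀).symmL ℝ z v : Eu 4)
      = (mfderiv (𝓡 4) (𝓡 4) (extChartAt (𝓡 4) x₀).symm (extChartAt (𝓡 4) x₀ z) v : Eu 4) :=
    (congrArg (fun L => (L v : Eu 4)) h1).trans (congrArg (fun L => (L v : Eu 4)) h3)
  have h4 : ((trivializationAt (Eu 4) (TangentSpace (𝓡 4)) x₀).symm z v : Eu 4)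
      = ((trivializationAt (Eu 4) (TangentSpace (𝓡 4)) x₀).symmL ℝ z v : Eu 4) :=
    (Trivialization.symmL_apply (R := ℝ) _ hz v).symm
  exact h4.trans h2

/-- the inner product on the tangent spaces -/
noncomputable def innerQ (x : MM P) :
    TangentSpace (𝓡 4) x →L[ℝ] TangentSpace (𝓡 4) x →L[ℝ] ℝ := ipL

theorem contMDiff_innerQ :
    ContMDiff (𝓡 4) ((𝓡 4).prod 𝓘(ℝ, Eu 4 →L[ℝ] Eu 4 →L[ℝ] ℝ)) ∞
      (fun b : MM P => TotalSpace.mk' (Eu 4 →L[ℝ] Eu 4 →L[ℝ] ℝ)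
        (E := fun y : MM P =>
          TangentSpace (𝓡 4) y →L[ℝ] TangentSpace (𝓡 4) y →L[ℝ] ℝ) b (innerQ P b)) := by
  intro x₀
  have hbase : x₀ ∈ (trivializationAt (Eu 4 →L[ℝ] Eu 4 →L[ℝ] ℝ)
      (fun y : MM P =>
        TangentSpace (𝓡 4) y →L[ℝ] TangentSpace (𝓡 4) y →L[ℝ] ℝ) x₀).baseSet :=
    mem_baseSet_trivializationAt _ _ x₀
  rw [← contMDiffWithinAt_univ,
    Trivialization.contMDiffWithinAt_section (e := trivializationAt (Eu 4 →L[ℝ] Eu 4 →L[ℝ] ℝ)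
      (fun y : MM P =>
        TangentSpace (𝓡 4) y →L[ℝ] TangentSpace (𝓡 4) y →L[ℝ] ℝ) x₀) _ hbase,
    contMDiffWithinAt_univ]
  have h1 : ContMDiffAt (𝓡 4) 𝓘(ℝ, Eu 4 →L[ℝ] Eu 4 →L[ℝ] ℝ) ∞
      (fun z : MM P => GB P.a (chartAt (Eu 4) x₀ z)) x₀ := by
    have h2 : ContMDiffAt (𝓡 4) (𝓡 4) ∞ (chartAt (Eu 4) x₀) x₀ :=
      contMDiffAt_of_mem_maximalAtlas (IsManifold.chart_mem_maximalAtlas x₀)
        (mem_chart_source (Eu 4) x₀)
    exact ((contDiff_GB P.a).contMDiff.contMDiffAt).comp x₀ h2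
  refine h1.congr_of_eventuallyEq ?_
  have hs : (chartAt (Eu 4) x₀).source ∈ 𝓝 x₀ :=
    (chartAt (Eu 4) x₀).open_source.mem_nhds (mem_chart_source (Eu 4) x₀)
  filter_upwards [hs] with z hz
  have hz1 : z ∈ (trivializationAt (Eu 4) (TangentSpace (𝓡 4)) x₀).baseSet := hz
  rw [hom_trivializationAt_apply]
  ext v w
  rw [inCoordinates_apply_eq₂ hz1 hz1 (by simp), Trivialization.linearMapAt_apply,
    if_pos (by simp), GB_apply, ← inner_mfderiv_psi P (lft P x₀), ← symm_triv P hz,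
    ← symm_triv P hz]
  rfl

/-- The locally homogeneous metric on the quotient. -/
noncomputable def RM : RMetric 4 (MM P) where
  inner x := innerQ P x
  symm _ _ _ := real_inner_comm (F := Eu 4) _ _
  pos _ _ hv := (real_inner_self_pos (F := Eu 4)).2 hv
  isVonNBounded _ := (riemannianMetricVectorSpace (Eu 4)).isVonNBounded 0
  contMDiff := contMDiff_innerQ P

theorem form_RM (x : MM P) (v w : Eu 4) : form (RM P) x v w = ⟪v, w⟫ := rfl

theorem chartCoeff_RM (x : MM P) : chartCoeff (RM P) x = GG P.a := by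
  funext y a b
  exact inner_mfderiv_psi P (lft P x) y a b

theorem hasFDerivAt_exp_coord (c : ℝ) (z : Eu 4) :
    HasFDerivAt (fun y : Eu 4 => Real.exp (c * y 0)) ((c * Real.exp (c * z 0)) • pj 0) z := by
  have h := ((pj 0).hasFDerivAt (x := z)).const_mul c |>.exp
  refine h.congr_fderiv ?_
  ext v; simp; ring

theorem fderiv_GG (a : ℝ) (z v b d : Eu 4) : fderiv ℝ (fun y => GG a y b d) z v =
    2 * a * v 0 * (Real.exp (2 * a * z 0) * (b 1 * d 1) - Real.exp (-(2 * a * z 0)) * (b 2 * d 2)) := by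
  have h1 := hasFDerivAt_exp_coord (2 * a) z
  have h2 := hasFDerivAt_exp_coord (-(2 * a)) z
  simp only [neg_mul] at h2
  have h3 := (((h1.mul_const (b 1 * d 1)).const_add (b 0 * d 0)).add
    (h2.mul_const (b 2 * d 2))).add_const (b 3 * d 3)
  have h4 : HasFDerivAt (fun y => GG a y b d) _ z := h3
  rw [h4.fderiv]
  simp; ring

/-- Christoffel symbols -/
noncomputable def Chr (a : ℝ) (z b d : Eu 4) : Eu 4 :=
  (a * (Real.exp (-(2 * a * z 0)) * (b 2 * d 2) - Real.exp (2 * a * z 0) * (b 1 * d 1))) • ev 0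
    + (a * (b 0 * d 1 + b 1 * d 0)) • ev 1 - (a * (b 0 * d 2 + b 2 * d 0)) • ev 2

theorem Chr_0 (a : ℝ) (z b d : Eu 4) : Chr a z b d 0 =
    a * (Real.exp (-(2 * a * z 0)) * (b 2 * d 2) - Real.exp (2 * a * z 0) * (b 1 * d 1)) := by
  simp [Chr, ev]
theorem Chr_1 (a : ℝ) (z b d : Eu 4) : Chr a z b d 1 = a * (b 0 * d 1 + b 1 * d 0) := by
  simp [Chr, ev]
theorem Chr_2 (a : ℝ) (z b d : Eu 4) : Chr a z b d 2 = -(a * (b 0 * d 2 + b 2 * d 0)) := by
  simp [Chr, ev]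
theorem Chr_3 (a : ℝ) (z b d : Eu 4) : Chr a z b d 3 = 0 := by
  simp [Chr, ev]

theorem koszul_GG (a : ℝ) (z b d e : Eu 4) : GG a z (Chr a z b d) e = koszul (GG a) z b d e := by
  rw [koszul, fderiv_GG, fderiv_GG, fderiv_GG, GG, Chr_0, Chr_1, Chr_2, Chr_3]
  ring

theorem hasFDerivAt_Chr (a : ℝ) (b d : Eu 4) : HasFDerivAt (fun z => Chr a z b d)
    (((-(2 * a ^ 2) * (b 2 * d 2 + b 1 * d 1)) • pj 0).smulRight (ev 0)) 0 := by
  have h1 := hasFDerivAt_exp_coord (2 * a) 0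
  have h2 := hasFDerivAt_exp_coord (-(2 * a)) 0
  simp only [neg_mul] at h2
  have h3 := ((((h2.mul_const (b 2 * d 2)).sub (h1.mul_const (b 1 * d 1))).const_mul a).smul_const
    (ev (0 : Fin 4))).add_const ((a * (b 0 * d 1 + b 1 * d 0)) • ev 1) |>.sub_const
    ((a * (b 0 * d 2 + b 2 * d 0)) • ev 2)
  refine HasFDerivAt.congr_fderiv h3 ?_
  ext v i
  simp; ring_nf

theorem ricci_Chr (a : ℝ) (b : Eu 4) : ricci (Chr a) 0 b b = -(2 * a ^ 2) * b 0 ^ 2 := by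
  simp only [ricci, riem, (hasFDerivAt_Chr a _ _).fderiv, Fin.sum_univ_four, PiLp.add_apply,
    PiLp.sub_apply, Chr_0, Chr_1, Chr_2, Chr_3]
  simp [ev]
  ring

theorem ricciGE_RM {K : ℝ} (hK : K ≤ -(2 * P.a ^ 2)) : RicciGE (RM P) K := by
  intro x
  rw [chartCoeff_RM, chartAt_self]
  refine ⟨Chr P.a, fun a b => (hasFDerivAt_Chr _ a b).differentiableAt,
    Eventually.of_forall fun z a b d => koszul_GG _ z a b d, fun b => ?_⟩
  rw [ricci_Chr, GG]
  simp only [PiLp.zero_apply, mul_zero, neg_zero, Real.exp_zero, one_mul]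
  have h0 : K ≤ 0 := hK.trans (by nlinarith [sq_nonneg P.a])
  nlinarith [mul_self_nonneg (b 0), mul_self_nonneg (b 1), mul_self_nonneg (b 2),
    mul_self_nonneg (b 3), mul_le_mul_of_nonneg_right hK (mul_self_nonneg (b 0))]

theorem det_GG (a : ℝ) (y : Eu 4) : (Matrix.of fun i j => GG a y (ev i) (ev j)).det = 1 := by
  have h1 : (Matrix.of fun i j => GG a y (ev i) (ev j)) =
      Matrix.diagonal ![1, Real.exp (2 * a * y 0), Real.exp (-(2 * a * y 0)), 1] := by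
    ext i j
    fin_cases i <;> fin_cases j <;> simp [GG, ev]
  rw [h1, Matrix.det_diagonal, Fin.prod_univ_four]
  simp [← Real.exp_add]

/-- derivatives along the invariant frame -/
noncomputable def DD (f : MM P → ℝ) (i : Fin 4) (x : MM P) : ℝ := dfun 4 f x (ev i)

theorem clm_apply_eq (L : Eu 4 →L[ℝ] ℝ) (v : Eu 4) : L v = ∑ i, v i * L (ev i) := by
  conv_lhs => rw [← (EuclideanSpace.basisFun (Fin 4) ℝ).sum_repr v]
  simp [ev]

theorem gradSq_RM (f : MM P → ℝ) (x : MM P) : gradSq (RM P) f x = ∑ i, DD P f i x ^ 2 := by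
  set w : Eu 4 := WithLp.toLp 2 fun i => DD P f i x with hw
  have h1 : ∀ v, dfun 4 f x v = ⟪w, v⟫ := by
    intro v
    rw [clm_apply_eq, inner_Eu4, Fin.sum_univ_four]
    simp [hw, DD]; ring
  have h2 : ∑ i, DD P f i x ^ 2 = ‖w‖ ^ 2 := by
    rw [EuclideanSpace.real_norm_sq_eq]
  rw [h2]
  refine IsGreatest.csSup_eq ⟨?_, ?_⟩
  · by_cases h : w = 0
    · exact ⟨0, by simp, by simp [h]⟩
    · have h3 : ‖w‖ ≠ 0 := norm_ne_zero_iff.2 h
      refine ⟨‖w‖⁻¹ • w, ?_, ?_⟩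
      · rw [form_RM, real_inner_self_eq_norm_sq, norm_smul]
        simp [h3]
      · rw [h1, real_inner_smul_right, real_inner_self_eq_norm_sq]
        field_simp
  · rintro r ⟨v, hv, rfl⟩
    rw [form_RM, real_inner_self_eq_norm_sq] at hv
    rw [h1, ← sq_abs]
    have h3 := abs_real_inner_le_norm w v
    have h4 := pow_le_pow_left₀ (abs_nonneg _) h3 2
    nlinarith [sq_nonneg ‖w‖]

variable {P}

theorem contDiff_comp_pr {f : MM P → ℝ} (hf : ContMDiff (𝓡 4) 𝓘(ℝ, ℝ) 1 f) :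
    ContDiff ℝ 1 (fun p => f (pr P p)) := by
  rw [← contMDiff_iff_contDiff]
  exact hf.comp fun p => contMDiffAt_pr_comp P (f := id) contDiffAt_id

theorem contMDiff_of_comp_pr {f : MM P → ℝ} (hf : ContDiff ℝ 1 (fun p => f (pr P p))) :
    ContMDiff (𝓡 4) 𝓘(ℝ, ℝ) 1 f := by
  intro x
  rw [contMDiffAt_iff]
  refine ⟨((isOpenQuotientMap_pr P).continuous_comp_iff.1 hf.continuous).continuousAt, ?_⟩
  simp only [mfld_simps]
  apply ContDiffAt.contDiffWithinAt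
  exact (hf.comp (contDiff_ml P.a (lft P x))).contDiffAt

theorem fderiv_comp_pr {f : MM P → ℝ} (hf : ContMDiff (𝓡 4) 𝓘(ℝ, ℝ) 1 f) (p : Eu 4) (i : Fin 4) :
    fderiv ℝ (fun p => f (pr P p)) p (ev i) = wt P.a (-(p 0)) i * DD P f i (pr P p) := by
  have h1 := (hf.mdifferentiableAt one_ne_zero (x := pr P p)).hasMFDerivAt.comp p
    (key_mfderiv P (hasFDerivAt_id p))
  have h2 : HasFDerivAt (fun p => f (pr P p))
      (dfun 4 f (pr P p) ∘L (dg (wt P.a (-(p 0))) ∘L ContinuousLinearMap.id ℝ _)) p :=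
    hasMFDerivAt_iff_hasFDerivAt.1 h1
  rw [h2.fderiv]
  have h3 : dg (wt P.a (-(p 0))) (ev i) = wt P.a (-(p 0)) i • ev i := by
    ext j
    by_cases h : j = i
    · subst h; simp [ev]
    · simp [ev, h]
  simp [h3, DD]

theorem DD_pr {f : MM P → ℝ} (hf : ContMDiff (𝓡 4) 𝓘(ℝ, ℝ) 1 f) (p : Eu 4) (i : Fin 4) :
    DD P f i (pr P p) = wt P.a (p 0) i * fderiv ℝ (fun p => f (pr P p)) p (ev i) := by
  rw [fderiv_comp_pr hf, ← mul_assoc, mul_comm (wt P.a (p 0) i), wt_neg_mul, one_mul]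

theorem continuous_DD {f : MM P → ℝ} (hf : ContMDiff (𝓡 4) 𝓘(ℝ, ℝ) 1 f) (i : Fin 4) :
    Continuous (DD P f i) := by
  refine (isOpenQuotientMap_pr P).continuous_comp_iff.1 ?_
  have h1 : DD P f i ∘ pr P = fun p => wt P.a (p 0) i * fderiv ℝ (fun p => f (pr P p)) p (ev i) :=
    funext fun p => DD_pr hf p i
  rw [h1]
  have h2 := (contDiff_comp_pr hf).continuous_fderiv one_ne_zero
  have h3 := (contDiff_wt P.a i (k := 0)).continuous
  fun_prop

theorem hasDerivAt_line {f : MM P → ℝ} (hf : ContMDiff (𝓡 4) 𝓘(ℝ, ℝ) 1 f) (p : Eu 4) (i : Fin 4)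
    (s : ℝ) : HasDerivAt (fun s : ℝ => f (pr P (p + s • ev i)))
      (wt P.a (-((p + s • ev i) 0)) i * DD P f i (pr P (p + s • ev i))) s := by
  rw [← fderiv_comp_pr hf]
  have h1 : HasDerivAt (fun s : ℝ => p + s • ev i) (ev i) s := by
    simpa using ((hasDerivAt_id s).smul_const (ev i)).const_add p
  exact (((contDiff_comp_pr hf).differentiable one_ne_zero _).hasFDerivAt).comp_hasDerivAt s h1

end Pool.Agent.H361Z.Sol
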