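import Mathlib
import Pool.Agent.H361Z.Sol.Met

set_option autoImplicit false

open MeasureTheory Set Filter
open scoped Topology Manifold ContDiff Pointwise ENNReal

namespace Pool.Agent.H361Z.Sol

/-- lattice coordinates on the fibre -/
abbrev R3 : Type := Fin 3 → ℝ

/-- the fibre torus -/
abbrev T3 : Type := UnitAddTorus (Fin 3)

/-- Haar probability measure on the torus -/
noncomputable def tm : Measure T3 := Measure.pi fun _ => AddCircle.haarAddCircle

instance : IsProbabilityMeasure tm := by unfold tm; infer_instance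

instance : tm.IsAddHaarMeasure := by unfold tm; infer_instance

/-- projection to the torus -/
def co (θ : R3) : T3 := fun i => (θ i : UnitAddCircle)

theorem isOpenQuotientMap_co : IsOpenQuotientMap co :=
  IsOpenQuotientMap.piMap (f := fun _ : Fin 3 => fun x : ℝ => (x : UnitAddCircle))
    fun _ => QuotientAddGroup.isOpenQuotientMap_mk

theorem co_add (θ θ' : R3) : co (θ + θ') = co θ + co θ' := rfl

theorem exists_int_of_co_eq {θ θ' : R3} (h : co θ = co θ') :
    ∃ z : Fin 3 → ℤ, ∀ i, θ i = z i + θ' i := by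
  have h1 : ∀ i, ∃ z : ℤ, θ i = z + θ' i := by
    intro i
    have h2 : ((θ i - θ' i : ℝ) : UnitAddCircle) = 0 := by
      rw [AddCircle.coe_sub, sub_eq_zero]; exact congrFun h i
    obtain ⟨z, hz⟩ := (AddCircle.coe_eq_zero_iff _).1 h2
    exact ⟨z, by simp at hz; linarith⟩
  exact ⟨fun i => (h1 i).choose, fun i => (h1 i).choose_spec⟩

/-- the unit cube -/
def cube : Set R3 := {θ | ∀ i, θ i ∈ Ioc (0 : ℝ) 1}

theorem measurableSet_cube : MeasurableSet cube :=
  MeasurableSet.univ_pi' fun _ => measurableSet_Ioc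

theorem integral_tm {E : Type} [NormedAddCommGroup E] [NormedSpace ℝ E] (f : T3 → E) :
    ∫ t, f t ∂tm = ∫ θ in cube, f (co θ) := by
  have h := UnitAddTorus.integral_preimage f 0
  simp only [Pi.zero_apply, zero_add] at h
  exact h

variable (P : Par)

/-- from lattice coordinates to group coordinates -/
noncomputable def Phi (q : ℝ × R3) : Eu 4 :=
  !₂[q.1, P.c * (q.2 0 + √2 * q.2 1), P.c * (q.2 0 - √2 * q.2 1), P.δ * q.2 2]

theorem Phi_0 (q : ℝ × R3) : Phi P q 0 = q.1 := rfl
theorem Phi_1 (q : ℝ × R3) : Phi P q 1 = P.c * (q.2 0 + √2 * q.2 1) := rfl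
theorem Phi_2 (q : ℝ × R3) : Phi P q 2 = P.c * (q.2 0 - √2 * q.2 1) := rfl
theorem Phi_3 (q : ℝ × R3) : Phi P q 3 = P.δ * q.2 2 := rfl

/-- the inverse change of coordinates -/
noncomputable def Psi (p : Eu 4) : ℝ × R3 :=
  (p 0, ![(p 1 + p 2) / (2 * P.c), (p 1 - p 2) / (2 * √2 * P.c), p 3 / P.δ])

theorem Eu4_ext {p q : Eu 4} (h0 : p 0 = q 0) (h1 : p 1 = q 1) (h2 : p 2 = q 2) (h3 : p 3 = q 3) :
    p = q := by
  ext i; fin_cases i <;> assumption

theorem Phi_Psi (p : Eu 4) : Phi P (Psi P p) = p := by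
  have := P.hc.ne'
  have := P.hδ.ne'
  have := sqrt2_pos.ne'
  refine Eu4_ext rfl ?_ ?_ ?_
  · simp [Phi_1, Psi]; field_simp; ring
  · simp [Phi_2, Psi]; field_simp; ring
  · simp [Phi_3, Psi]; field_simp

theorem Psi_Phi (q : ℝ × R3) : Psi P (Phi P q) = q := by
  have := P.hc.ne'
  have := P.hδ.ne'
  have := sqrt2_pos.ne'
  refine Prod.ext rfl (funext fun i => ?_)
  fin_cases i
  · simp [Phi_1, Phi_2, Psi]; field_simp; ring
  · simp [Phi_1, Phi_2, Psi]; field_simp; ring
  · simp [Phi_3, Psi]; field_simp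

theorem continuous_Phi : Continuous (Phi P) := by
  refine (PiLp.continuous_toLp 2 _).comp (continuous_pi fun i => ?_)
  fin_cases i <;> simp <;> fun_prop

theorem continuous_Psi : Continuous (Psi P) := by
  refine Continuous.prodMk (by fun_prop) (continuous_pi fun i => ?_)
  fin_cases i <;> simp <;> fun_prop

variable {P}

/-- the action in lattice coordinates -/
noncomputable def act (γ : Gam P) (θ : R3) : R3 :=
  ![γ.w.re + ((nu (-(P.n * γ.k))).re * θ 0 + 2 * (nu (-(P.n * γ.k))).im * θ 1),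
    γ.w.im + ((nu (-(P.n * γ.k))).im * θ 0 + (nu (-(P.n * γ.k))).re * θ 1), γ.m + θ 2]

theorem smul_Phi (γ : Gam P) (x : ℝ) (θ : R3) :
    γ • Phi P (x, θ) = Phi P (γ.k * P.L + x, act γ θ) := by
  refine Eu4_ext ?_ ?_ ?_ ?_
  · rw [smul_0]; rfl
  · rw [smul_1, Phi_1, Phi_1, s1_apply, s1_apply]
    simp [act]
    linear_combination (P.c * (nu (-(P.n * γ.k))).im * θ 1) * sqrt2_mul
  · rw [smul_2, Phi_2, Phi_2, s2_apply, s2_apply]
    simp [act]
    linear_combination (P.c * (nu (-(P.n * γ.k))).im * θ 1) * sqrt2_mul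
  · rw [smul_3, Phi_3, Phi_3]
    simp [act]; ring

variable (P)

/-- the fundamental domain in lattice coordinates -/
def strip : Set (ℝ × R3) := Ioc 0 P.L ×ˢ cube

theorem measurableSet_strip : MeasurableSet (strip P) := measurableSet_Ioc.prod measurableSet_cube

/-- the fundamental domain -/
def fd : Set (Eu 4) := Psi P ⁻¹' strip P

theorem measurableSet_fd : MeasurableSet (fd P) :=
  (continuous_Psi P).measurable (measurableSet_strip P)

theorem exu_int (b : ℝ) : ∃! m : ℤ, (m : ℝ) + b ∈ Ioc (0 : ℝ) 1 := by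
  have := existsUnique_add_zsmul_mem_Ioc one_pos b (0 : ℝ)
  simpa [add_comm] using this

theorem existsUnique_fd (p : Eu 4) : ∃! γ : Gam P, γ • p ∈ fd P := by
  obtain ⟨⟨x, θ⟩, rfl⟩ : ∃ q, p = Phi P q := ⟨_, (Phi_Psi P p).symm⟩
  have key : ∀ γ : Gam P, γ • Phi P (x, θ) ∈ fd P ↔ γ.k * P.L + x ∈ Ioc 0 P.L ∧
      act γ θ 0 ∈ Ioc (0 : ℝ) 1 ∧ act γ θ 1 ∈ Ioc (0 : ℝ) 1 ∧ act γ θ 2 ∈ Ioc (0 : ℝ) 1 := by
    intro γ
    rw [smul_Phi, fd, mem_preimage, Psi_Phi, strip, mem_prod, cube, mem_ofPred_eq,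
      Fin.forall_fin_succ, Fin.forall_fin_two]
    rfl
  obtain ⟨k, hk, hk'⟩ : ∃! k : ℤ, k * P.L + x ∈ Ioc 0 P.L := by
    have := existsUnique_add_zsmul_mem_Ioc P.L_pos x 0
    simpa [add_comm] using this
  obtain ⟨r, hr, hr'⟩ := exu_int ((nu (-(P.n * k))).re * θ 0 + 2 * (nu (-(P.n * k))).im * θ 1)
  obtain ⟨s, hs, hs'⟩ := exu_int ((nu (-(P.n * k))).im * θ 0 + (nu (-(P.n * k))).re * θ 1)
  obtain ⟨m, hm, hm'⟩ := exu_int (θ 2)
  refine ⟨⟨k, ⟨r, s⟩, m⟩, (key _).2 ⟨hk, hr, hs, hm⟩, fun γ hγ => ?_⟩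
  obtain ⟨h0, h1, h2, h3⟩ := (key γ).1 hγ
  have e := hk' _ h0
  subst e
  exact Gam.ext rfl (Zsqrtd.ext (hr' _ h1) (hs' _ h2)) (hm' _ h3)

theorem measurePreserving_lin {A : Matrix (Fin 4) (Fin 4) ℝ} (h : A.det ≠ 0) :
    Measure.map (fun v : Fin 4 → ℝ => (WithLp.toLp 2 (A.mulVec v) : Eu 4)) volume
      = ENNReal.ofReal |A.det⁻¹| • volume := by
  have h1 := Real.map_matrix_volume_pi_eq_smul_volume_pi h
  have h2 := (PiLp.volume_preserving_toLp (Fin 4)).map_eq
  have h3 : (fun v : Fin 4 → ℝ => (WithLp.toLp 2 (A.mulVec v) : Eu 4))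
      = WithLp.toLp 2 ∘ Matrix.toLin' A := rfl
  rw [h3, ← Measure.map_map (PiLp.volume_preserving_toLp (Fin 4)).measurable
    (LinearMap.continuous_of_finiteDimensional _).measurable, h1, Measure.map_smul, h2]

theorem measurePreserving_ml (a : ℝ) (u : Eu 4) : MeasurePreserving (ml a u) := by
  have hd : (Matrix.diagonal (wt a (u 0))).det = 1 := by
    rw [Matrix.det_diagonal, Fin.prod_univ_four]; simp [← Real.exp_add]
  have h1 := measurePreserving_lin (A := Matrix.diagonal (wt a (u 0))) (by rw [hd]; simp)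
  rw [hd] at h1
  simp only [inv_one, abs_one, ENNReal.ofReal_one, one_smul] at h1
  have h2 : MeasurePreserving (fun v : Fin 4 → ℝ =>
      (WithLp.toLp 2 ((Matrix.diagonal (wt a (u 0))).mulVec v) : Eu 4)) :=
    ⟨by fun_prop, h1⟩
  have h3 := (measurePreserving_add_left volume u).comp
    (h2.comp (PiLp.volume_preserving_ofLp (Fin 4)))
  have h4 : ml a u = (fun x => u + x) ∘ (fun v : Fin 4 → ℝ =>
      (WithLp.toLp 2 ((Matrix.diagonal (wt a (u 0))).mulVec v) : Eu 4)) ∘ WithLp.ofLp := by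
    funext q
    ext i
    simp [ml_apply, Matrix.mulVec_diagonal]
  rw [h4]
  exact h3

instance : MeasurableConstSMul (Gam P) (Eu 4) := ⟨fun _ => (continuous_ml _ _).measurable⟩

instance : SMulInvariantMeasure (Gam P) (Eu 4) volume :=
  ⟨fun γ _ hs => (measurePreserving_ml P.a (emb γ)).measure_preimage hs.nullMeasurableSet⟩

theorem isFundamentalDomain_fd : IsFundamentalDomain (Gam P) (fd P) volume :=
  IsFundamentalDomain.mk' (measurableSet_fd P).nullMeasurableSet (existsUnique_fd P)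

/-- the covolume factor -/
noncomputable def JJ : ℝ := 2 * √2 * P.c ^ 2 * P.δ

theorem JJ_pos : 0 < JJ P := by
  have := P.hc; have := P.hδ; have := sqrt2_pos; unfold JJ; positivity

theorem map_Phi : Measure.map (Phi P) volume = ENNReal.ofReal (JJ P)⁻¹ • volume := by
  set A : Matrix (Fin 4) (Fin 4) ℝ :=
    !![1, 0, 0, 0; 0, P.c, P.c * √2, 0; 0, P.c, -(P.c * √2), 0; 0, 0, 0, P.δ] with hA
  have hd : A.det = -JJ P := by
    simp [hA, Matrix.det_succ_row_zero, Fin.sum_univ_succ, JJ, Fin.succAbove]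
    ring
  have h1 := measurePreserving_lin (A := A) (by rw [hd]; exact neg_ne_zero.2 (JJ_pos P).ne')
  have h2 := (volume_preserving_piFinSuccAbove (fun _ : Fin 4 => ℝ) 0).symm
  have h3 : Phi P = (fun v : Fin 4 → ℝ => (WithLp.toLp 2 (A.mulVec v) : Eu 4)) ∘
      (MeasurableEquiv.piFinSuccAbove (fun _ : Fin 4 => ℝ) 0).symm := by
    funext q
    have e : (MeasurableEquiv.piFinSuccAbove (fun _ : Fin 4 => ℝ) 0).symm q
        = ![q.1, q.2 0, q.2 1, q.2 2] := by
      funext i
      fin_cases i <;> simp [MeasurableEquiv.piFinSuccAbove, Fin.insertNthEquiv] <;> rfl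
    rw [Function.comp_apply, e]
    refine Eu4_ext ?_ ?_ ?_ ?_ <;> simp [hA, Phi, dotProduct, Fin.sum_univ_succ] <;> ring
  rw [h3, ← Measure.map_map (by fun_prop) h2.measurable, h2.map_eq, h1, hd, inv_neg, abs_neg,
    abs_of_pos (inv_pos.2 (JJ_pos P))]

noncomputable instance : MeasurableSpace (MM P) := borel _

instance : BorelSpace (MM P) := ⟨rfl⟩

/-- the Riemannian volume -/
noncomputable def mu : Measure (MM P) := Measure.map (pr P) (volume.restrict (fd P))

theorem isVolume_mu : IsVolume (RM P) (mu P) := by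
  intro x s hs hsub
  rw [chartCoeff_RM]
  simp only [det_GG, Real.sqrt_one, ENNReal.ofReal_one, setLIntegral_one]
  rw [chartAt_eq] at hsub ⊢
  set u := lft P x
  set S₀ := chart P u '' s with hS₀
  have hS : S₀ = TT P ∩ psi P u ⁻¹' s := by
    rw [hS₀, (chart P u).image_eq_target_inter_inv_preimage hsub]; rfl
  have hm₀ : MeasurableSet S₀ := by
    rw [hS]
    exact (isOpen_TT P).measurableSet.inter ((continuous_psi P u).measurable hs)
  set S := ml P.a (iv P.a u) ⁻¹' S₀ with hSdef
  have hm : MeasurableSet S := (continuous_ml _ _).measurable hm₀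
  have hv : volume S = volume S₀ :=
    (measurePreserving_ml P.a (iv P.a u)).measure_preimage hm₀.nullMeasurableSet
  have hmem : ∀ p, p ∈ S ↔ ml P.a (iv P.a u) p ∈ TT P ∧ pr P p ∈ s := by
    intro p
    rw [hSdef, mem_preimage, hS, mem_inter_iff, mem_preimage, psi, ml_iv_ml]
  have hU : pr P ⁻¹' s ∩ fd P = ⋃ γ : Gam P, (γ • S ∩ fd P) := by
    rw [← iUnion_inter]
    congr 1
    ext p
    simp only [mem_preimage, mem_iUnion, mem_smul_set_iff_inv_smul_mem, hmem, pr_smul]
    constructor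
    · intro h
      obtain ⟨γ, hγ⟩ := (pr_mem_source P u p).1 (hsub h)
      exact ⟨γ⁻¹, by rwa [inv_inv], h⟩
    · rintro ⟨_, _, h⟩
      exact h
  rw [mu, Measure.map_apply (continuous_pr P).measurable hs,
    Measure.restrict_apply ((continuous_pr P).measurable hs), hU, measure_iUnion, ← hv,
    (isFundamentalDomain_fd P).measure_eq_tsum S]
  · intro γ γ' hne
    refine Disjoint.mono inter_subset_left inter_subset_left (disjoint_left.2 fun p h1 h2 => hne ?_)
    rw [mem_smul_set_iff_inv_smul_mem, hmem] at h1 h2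
    have h3 := eq_one_of_TT (u := u) (γ := γ'⁻¹ * γ) h1.1 h2.1 (by
      rw [ml_iv_ml, ml_iv_ml, mul_smul, smul_inv_smul])
    exact (inv_mul_eq_one.1 h3).symm
  · intro γ
    exact (hm.const_smul γ).inter (measurableSet_fd P)

/-- the fibre over `x` parametrised by the torus -/
noncomputable def io (x : ℝ) (t : T3) : MM P :=
  pr P (Phi P (x, fun i => (AddCircle.equivIoc 1 0 (t i) : ℝ)))

theorem io_co (x : ℝ) (θ : R3) : io P x (co θ) = pr P (Phi P (x, θ)) := by
  obtain ⟨z, hz⟩ := exists_int_of_co_eq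
    (θ := fun i => (AddCircle.equivIoc 1 0 (co θ i) : ℝ)) (θ' := θ)
    (funext fun i => AddCircle.coe_equivIoc)
  rw [io, ← pr_smul (P := P) ⟨0, ⟨z 0, z 1⟩, z 2⟩ (Phi P (x, θ)), smul_Phi]
  congr 2
  refine Prod.ext (by simp) (funext fun i => ?_)
  simp only
  rw [hz]
  fin_cases i <;> simp [act, nu_zero]

theorem continuous_io : Continuous (fun q : ℝ × T3 => io P q.1 q.2) := by
  refine (IsOpenQuotientMap.id.prodMap isOpenQuotientMap_co).continuous_comp_iff.1 ?_
  have : (fun q : ℝ × T3 => io P q.1 q.2) ∘ Prod.map id co = fun q => pr P (Phi P q) :=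
    funext fun q => io_co P q.1 q.2
  rw [this]
  exact (continuous_pr P).comp (continuous_Phi P)

theorem exists_io (y : MM P) : ∃ x ∈ Icc 0 P.L, ∃ t, io P x t = y := by
  obtain ⟨γ, hγ, -⟩ := existsUnique_fd P (lft P y)
  refine ⟨(Psi P (γ • lft P y)).1, Ioc_subset_Icc_self hγ.1, co (Psi P (γ • lft P y)).2, ?_⟩
  rw [io_co, Prod.mk.eta, Phi_Psi, pr_smul, pr_lft]

instance : CompactSpace (MM P) := by
  refine ⟨?_⟩
  have h := ((isCompact_Icc (a := 0) (b := P.L)).prod (isCompact_univ (X := T3))).image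
    (continuous_io P)
  refine h.of_isClosed_subset isClosed_univ fun y _ => ?_
  obtain ⟨x, hx, t, ht⟩ := exists_io P y
  exact ⟨(x, t), ⟨hx, trivial⟩, ht⟩

/-- fibre integral -/
noncomputable def fib (h : MM P → ℝ) (x : ℝ) : ℝ := ∫ t, h (io P x t) ∂tm

variable {P}

theorem continuous_fib {h : MM P → ℝ} (hh : Continuous h) : Continuous (fib P h) := by
  have := continuous_parametric_integral_of_continuous (μ := tm)
    (f := fun x t => h (io P x t)) (hh.comp (continuous_io P)) isCompact_univ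
  simp only [Measure.restrict_univ] at this
  exact this

theorem volume_cube : volume cube = 1 := by
  have : cube = Set.pi univ fun _ : Fin 3 => Ioc (0 : ℝ) 1 := by
    ext θ; simp [cube]
  rw [this, volume_pi_pi]; simp

theorem mu_eq : mu P = ENNReal.ofReal (JJ P) •
    Measure.map (fun q => pr P (Phi P q)) (volume.restrict (strip P)) := by
  have h1 : strip P = Phi P ⁻¹' fd P := by
    ext q; simp [fd, Psi_Phi]
  have h2 : (fun q => pr P (Phi P q)) = pr P ∘ Phi P := rfl
  rw [h2, ← Measure.map_map (continuous_pr P).measurable (continuous_Phi P).measurable, h1,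
    ← Measure.restrict_map (continuous_Phi P).measurable (measurableSet_fd P), map_Phi,
    Measure.restrict_smul, Measure.map_smul, smul_smul, ← ENNReal.ofReal_mul (JJ_pos P).le,
    mul_inv_cancel₀ (JJ_pos P).ne', ENNReal.ofReal_one, one_smul, mu]

theorem volume_strip : volume (strip P) = ENNReal.ofReal P.L := by
  rw [strip, Measure.volume_eq_prod, Measure.prod_prod, volume_cube]; simp

theorem mu_univ : mu P univ = ENNReal.ofReal (JJ P * P.L) := by
  have hc : Continuous (fun q => pr P (Phi P q)) := (continuous_pr P).comp (continuous_Phi P)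
  rw [mu_eq, Measure.smul_apply, Measure.map_apply hc.measurable MeasurableSet.univ]
  simp [volume_strip, ENNReal.ofReal_mul (JJ_pos P).le]

theorem integral_mu {h : MM P → ℝ} (hh : Continuous h) :
    ∫ y, h y ∂mu P = JJ P * ∫ x in (0 : ℝ)..P.L, fib P h x := by
  have hc : Continuous (fun q => pr P (Phi P q)) := (continuous_pr P).comp (continuous_Phi P)
  obtain ⟨B, hB⟩ := (isCompact_range hh).isBounded.exists_norm_le
  have hi : IntegrableOn (fun q => h (pr P (Phi P q))) (Ioc 0 P.L ×ˢ cube) (volume.prod volume) := by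
    refine Measure.integrableOn_of_bounded (M := B) ?_ (hh.comp hc).aestronglyMeasurable
      (Eventually.of_forall fun q => hB _ (mem_range_self _))
    have := volume_strip (P := P)
    rw [strip, Measure.volume_eq_prod] at this
    rw [this]; exact ENNReal.ofReal_ne_top
  rw [mu_eq, integral_smul_measure, integral_map hc.aemeasurable hh.aestronglyMeasurable,
    ENNReal.toReal_ofReal (JJ_pos P).le, smul_eq_mul, strip, Measure.volume_eq_prod,
    setIntegral_prod _ hi, intervalIntegral.integral_of_le P.L_pos.le]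
  simp only [fib, integral_tm, io_co]

/-- the monodromy on the torus -/
noncomputable def mono (η : Z2) : T3 →+ T3 where
  toFun t := ![η.re • t 0 + (2 * η.im) • t 1, η.im • t 0 + η.re • t 1, t 2]
  map_zero' := by ext i; fin_cases i <;> simp
  map_add' s t := by ext i; fin_cases i <;> simp <;> abel

theorem mono_mono (η η' : Z2) (t : T3) : mono η (mono η' t) = mono (η * η') t := by
  ext i
  fin_cases i
  · simp [mono, smul_add, smul_smul, add_smul]; module
  · simp [mono, smul_add, smul_smul, add_smul]; module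
  · simp [mono]

theorem mono_one (t : T3) : mono 1 t = t := by
  ext i; fin_cases i <;> simp [mono]

theorem measurePreserving_mono (k : ℤ) : MeasurePreserving (mono (nu k)) tm tm := by
  refine AddMonoidHom.measurePreserving ?_ (fun t => ⟨mono (nu (-k)) t, ?_⟩) rfl
  · refine continuous_pi fun i => ?_
    fin_cases i <;> simp [mono] <;> fun_prop
  · rw [mono_mono, ← nu_add, add_neg_cancel, nu_zero, mono_one]

theorem io_mono (x : ℝ) (t : T3) : io P (x + P.L) (mono (nu (-(P.n : ℤ))) t) = io P x t := by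
  obtain ⟨θ, rfl⟩ := isOpenQuotientMap_co.surjective t
  have h : mono (nu (-(P.n : ℤ))) (co θ) = co (act (P := P) ⟨1, 0, 0⟩ θ) := by
    ext i
    have e : ∀ (z : ℤ) (r : ℝ), (((z : ℝ) * r : ℝ) : UnitAddCircle) = z • (r : UnitAddCircle) := by
      intro z r; rw [← AddCircle.coe_zsmul, zsmul_eq_mul]
    fin_cases i
    · have := e (2 * (nu (-(P.n : ℤ))).im) (θ 1)
      push_cast at this
      simp [mono, co, act, e, this]
    · simp [mono, co, act, e]
    · simp [mono, co, act]
  rw [h, io_co, io_co, ← pr_smul (P := P) ⟨1, 0, 0⟩ (Phi P (x, θ)), smul_Phi]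
  simp [add_comm]

theorem periodic_fib {h : MM P → ℝ} (hh : Continuous h) : Function.Periodic (fib P h) P.L := by
  intro x
  have hm := measurePreserving_mono (-(P.n : ℤ))
  have hc : Continuous fun t => h (io P (x + P.L) t) :=
    hh.comp ((continuous_io P).comp (Continuous.prodMk_right _))
  have h1 := integral_map (μ := tm) hm.measurable.aemeasurable
    (f := fun t => h (io P (x + P.L) t)) hc.aestronglyMeasurable
  rw [hm.map_eq] at h1
  simp only [fib, h1, io_mono]

end Pool.Agent.H361Z.Sol
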