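import Mathlib
import Pool.Agent.H361Z.Sol.Vol
import Pool.Agent.H361Z.Sol.OneD

set_option autoImplicit false

open MeasureTheory Set Filter UnitAddTorus
open scoped Topology Manifold ContDiff Real

namespace Pool.Agent.H361Z.Sol

theorem mFourier_add_pt (ξ : Fin 3 → ℤ) (s t : T3) :
    mFourier ξ (s + t) = mFourier ξ s * mFourier ξ t := by
  simp only [mFourier, ContinuousMap.coe_mk, Pi.add_apply, ← Finset.prod_mul_distrib]
  refine Finset.prod_congr rfl fun i _ => ?_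
  simp only [fourier_apply, smul_add, AddCircle.toCircle_add, Circle.coe_mul]

theorem mFourier_co (ξ : Fin 3 → ℤ) (θ : R3) :
    mFourier ξ (co θ) = Complex.exp (((2 * π * ∑ j, ξ j * θ j : ℝ) : ℂ) * Complex.I) := by
  simp only [mFourier, ContinuousMap.coe_mk, co, fourier_coe_apply, ← Complex.exp_sum]
  congr 1
  simp only [Fin.sum_univ_three]
  push_cast
  ring

theorem norm_mFourier (ξ : Fin 3 → ℤ) (t : T3) : ‖mFourier ξ t‖ = 1 := by
  obtain ⟨θ, rfl⟩ := isOpenQuotientMap_co.surjective t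
  rw [mFourier_co, Complex.norm_exp_ofReal_mul_I]

theorem parseval {H : T3 → ℝ} (hH : Continuous H) :
    HasSum (fun ξ : Fin 3 → ℤ => ‖∫ t, mFourier (-ξ) t * (H t : ℂ) ∂tm‖ ^ 2) (∫ t, H t ^ 2 ∂tm) := by
  let F : C(T3, ℂ) := ⟨fun t => (H t : ℂ), Complex.continuous_ofReal.comp hH⟩
  have h := hasSum_sq_mFourierCoeff (ContinuousMap.toLp 2 tm ℂ F)
  have e1 : ∀ ξ, mFourierCoeff (ContinuousMap.toLp 2 tm ℂ F) ξ
      = ∫ t, mFourier (-ξ) t * (H t : ℂ) ∂tm := fun ξ => mFourierCoeff_toLp F ξ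
  have e2 : ∫ t, ‖(ContinuousMap.toLp 2 tm ℂ F) t‖ ^ 2 ∂tm = ∫ t, H t ^ 2 ∂tm := by
    refine integral_congr_ae ?_
    filter_upwards [ContinuousMap.coeFn_toLp (p := 2) (𝕜 := ℂ) tm F] with t ht
    rw [ht]
    simp [F]
  rw [← e2]
  exact HasSum.congr_fun h fun ξ => by rw [← e1]; rfl

variable {P : Par}

/-- Fourier coefficients along the fibres -/
noncomputable def cf (h : MM P → ℝ) (ξ : Fin 3 → ℤ) (x : ℝ) : ℂ :=
  ∫ t, mFourier (-ξ) t * (h (io P x t) : ℂ) ∂tm

theorem continuous_io_right (x : ℝ) : Continuous (io P x) :=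
  (continuous_io P).comp (Continuous.prodMk_right x)

theorem hasSum_cf {h : MM P → ℝ} (hh : Continuous h) (x : ℝ) :
    HasSum (fun ξ => ‖cf h ξ x‖ ^ 2) (fib P (fun y => h y ^ 2) x) :=
  parseval (hh.comp (continuous_io_right x))

theorem continuous_cf {h : MM P → ℝ} (hh : Continuous h) (ξ : Fin 3 → ℤ) :
    Continuous (cf h ξ) := by
  have := continuous_parametric_integral_of_continuous (μ := tm)
    (f := fun x t => mFourier (-ξ) t * (h (io P x t) : ℂ))
    (((mFourier (-ξ)).continuous.comp continuous_snd).mul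
      (Complex.continuous_ofReal.comp (hh.comp (continuous_io P)))) isCompact_univ
  simp only [Measure.restrict_univ] at this
  exact this

theorem cf_zero (h : MM P → ℝ) (x : ℝ) : cf h 0 x = fib P h x := by
  simp [cf, fib, mFourier_zero, integral_complex_ofReal]

theorem dui {G : ℝ → T3 → MM P} (hG : ∀ s, Continuous (G s)) {f f' : MM P → ℝ}
    (hf : Continuous f) (hf' : Continuous f') (κ : ℝ)
    (hd : ∀ s t, HasDerivAt (fun s => f (G s t)) (κ * f' (G s t)) s) (ξ : Fin 3 → ℤ) (s : ℝ) :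
    HasDerivAt (fun s => ∫ t, mFourier (-ξ) t * (f (G s t) : ℂ) ∂tm)
      (κ * ∫ t, mFourier (-ξ) t * (f' (G s t) : ℂ) ∂tm) s := by
  obtain ⟨B, hB⟩ := (isCompact_range hf').isBounded.exists_norm_le
  have hc : ∀ {g : MM P → ℝ}, Continuous g → ∀ s,
      Continuous fun t => mFourier (-ξ) t * (g (G s t) : ℂ) := fun hg s =>
    (mFourier (-ξ)).continuous.mul (Complex.continuous_ofReal.comp (hg.comp (hG s)))
  have h := hasDerivAt_integral_of_dominated_loc_of_deriv_le (μ := tm) (x₀ := s) (s := univ)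
    (F := fun s t => mFourier (-ξ) t * (f (G s t) : ℂ))
    (F' := fun s t => (κ : ℂ) * (mFourier (-ξ) t * (f' (G s t) : ℂ))) (bound := fun _ => |κ| * B)
    univ_mem (Eventually.of_forall fun s => (hc hf s).aestronglyMeasurable)
    ((hc hf s).integrable_of_hasCompactSupport (HasCompactSupport.of_compactSpace _))
    (continuous_const.mul (hc hf' s)).aestronglyMeasurable
    (Eventually.of_forall fun t s _ => by
      rw [norm_mul, norm_mul, norm_mFourier, one_mul, Complex.norm_real, Complex.norm_real,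
        Real.norm_eq_abs]
      exact mul_le_mul_of_nonneg_left (hB _ (mem_range_self _)) (abs_nonneg _))
    (integrable_const _)
    (Eventually.of_forall fun t s _ => by
      have h1 := ((hd s t).ofReal_comp).const_mul (mFourier (-ξ) t)
      refine h1.congr_deriv ?_
      push_cast; ring)
  rw [← integral_const_mul]
  exact h.2

theorem Phi_add (x s : ℝ) (θ : R3) : Phi P (x + s, θ) = Phi P (x, θ) + s • ev 0 := by
  refine Eu4_ext ?_ ?_ ?_ ?_ <;> simp [Phi, ev]

theorem hasDerivAt_io {f : MM P → ℝ} (hf : ContMDiff (𝓡 4) 𝓘(ℝ, ℝ) 1 f) (x : ℝ) (t : T3) :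
    HasDerivAt (fun x => f (io P x t)) (1 * DD P f 0 (io P x t)) x := by
  obtain ⟨θ, rfl⟩ := isOpenQuotientMap_co.surjective t
  have h := hasDerivAt_line hf (Phi P (0, θ)) 0 x
  simp only [← Phi_add, zero_add, wt_0] at h
  simpa only [io_co] using h

theorem hasDerivAt_cf {f : MM P → ℝ} (hf : ContMDiff (𝓡 4) 𝓘(ℝ, ℝ) 1 f) (ξ : Fin 3 → ℤ) (x : ℝ) :
    HasDerivAt (cf f ξ) (cf (DD P f 0) ξ x) x := by
  have h := dui (G := io P) continuous_io_right hf.continuous (continuous_DD hf 0) 1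
    (hasDerivAt_io hf) ξ x
  rw [Complex.ofReal_one, one_mul] at h
  exact h

theorem hasDerivAt_fib {f : MM P → ℝ} (hf : ContMDiff (𝓡 4) 𝓘(ℝ, ℝ) 1 f) (x : ℝ) :
    HasDerivAt (fib P f) (fib P (DD P f 0) x) x := by
  have h := Complex.reCLM.hasFDerivAt.comp_hasDerivAt x (hasDerivAt_cf hf 0 x)
  have e : Complex.reCLM ∘ cf f 0 = fib P f := by
    funext y; simp [cf_zero]
  rw [e, cf_zero] at h
  exact h

variable (P) in
/-- the coordinate directions in lattice coordinates -/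
noncomputable def om (i : Fin 4) : R3 := (Psi P (ev i)).2

theorem Phi_om {i : Fin 4} (hi : i ≠ 0) (x s : ℝ) (θ : R3) :
    Phi P (x, θ + s • om P i) = Phi P (x, θ) + s • ev i := by
  have h := Phi_Psi P (ev i)
  have h1 := congrArg (fun p : Eu 4 => p 1) h
  have h2 := congrArg (fun p : Eu 4 => p 2) h
  have h3 := congrArg (fun p : Eu 4 => p 3) h
  simp only [Phi_1, Phi_2, Phi_3] at h1 h2 h3
  refine Eu4_ext ?_ ?_ ?_ ?_
  · simp [Phi_0, ev, hi.symm]
  · simp only [Phi_1, PiLp.add_apply, PiLp.smul_apply, Pi.add_apply, Pi.smul_apply, smul_eq_mul,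
      om, ← h1]; ring
  · simp only [Phi_2, PiLp.add_apply, PiLp.smul_apply, Pi.add_apply, Pi.smul_apply, smul_eq_mul,
      om, ← h2]; ring
  · simp only [Phi_3, PiLp.add_apply, PiLp.smul_apply, Pi.add_apply, Pi.smul_apply, smul_eq_mul,
      om, ← h3]; ring

variable (P) in
/-- the frequency in the direction `i` -/
noncomputable def fq (ξ : Fin 3 → ℤ) (i : Fin 4) : ℝ := 2 * π * ∑ j, ξ j * om P i j

theorem cf_dir {f : MM P → ℝ} (hf : ContMDiff (𝓡 4) 𝓘(ℝ, ℝ) 1 f) {i : Fin 4} (hi : i ≠ 0)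
    (ξ : Fin 3 → ℤ) (x : ℝ) :
    (wt P.a (-x) i : ℂ) * cf (DD P f i) ξ x = (fq P ξ i * Complex.I) * cf f ξ x := by
  have h := dui (G := fun s t => io P x (t + co (s • om P i)))
    (fun s => (continuous_io_right x).comp (continuous_id.add continuous_const)) hf.continuous
    (continuous_DD hf i) (wt P.a (-x) i) (fun s t => by
      obtain ⟨θ, rfl⟩ := isOpenQuotientMap_co.surjective t
      have h := hasDerivAt_line hf (Phi P (x, θ)) i s
      simp only [← Phi_om hi, Phi_0] at h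
      simpa only [← co_add, io_co] using h) ξ 0
  have e : (fun s : ℝ => ∫ t, mFourier (-ξ) t * (f (io P x (t + co (s • om P i))) : ℂ) ∂tm)
      = fun s : ℝ => Complex.exp (s * (fq P ξ i * Complex.I)) * cf f ξ x := by
    funext s
    rw [cf, ← integral_const_mul, ← integral_add_right_eq_self (μ := tm) (fun t =>
      Complex.exp (s * (fq P ξ i * Complex.I)) * (mFourier (-ξ) t * (f (io P x t) : ℂ)))
      (co (s • om P i))]
    refine integral_congr_ae (Eventually.of_forall fun t => ?_)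
    simp only
    rw [mFourier_add_pt, mFourier_co, ← mul_assoc]
    congr 1
    rw [mul_left_comm, ← Complex.exp_add]
    have : (s : ℂ) * (fq P ξ i * Complex.I) + ((2 * π * ∑ j, ((-ξ) j : ℝ) * (s • om P i) j : ℝ) : ℂ)
        * Complex.I = 0 := by
      simp only [fq, Fin.sum_univ_three, Pi.neg_apply, Pi.smul_apply, smul_eq_mul]
      push_cast; ring
    rw [this, Complex.exp_zero, mul_one]
  rw [e] at h
  have h2 : HasDerivAt (fun s : ℝ => Complex.exp (s * (fq P ξ i * Complex.I)) * cf f ξ x)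
      ((fq P ξ i * Complex.I) * cf f ξ x) 0 := by
    have h3 := (((hasDerivAt_id (0 : ℝ)).ofReal_comp.mul_const
      ((fq P ξ i : ℂ) * Complex.I)).cexp).mul_const (cf f ξ x)
    simpa using h3
  have h4 := h.unique h2
  have h5 : co 0 = 0 := rfl
  simp only [zero_smul, h5, add_zero] at h4
  exact h4

theorem norm_cf_dir {f : MM P → ℝ} (hf : ContMDiff (𝓡 4) 𝓘(ℝ, ℝ) 1 f) {i : Fin 4} (hi : i ≠ 0)
    (ξ : Fin 3 → ℤ) (x : ℝ) :
    ‖cf (DD P f i) ξ x‖ ^ 2 = (wt P.a x i * fq P ξ i) ^ 2 * ‖cf f ξ x‖ ^ 2 := by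
  have h := congrArg (fun z : ℂ => ‖z‖ ^ 2) (cf_dir hf hi ξ x)
  simp only [norm_mul, Complex.norm_real, Complex.norm_I, mul_one, mul_pow, Real.norm_eq_abs,
    sq_abs] at h
  have h1 := wt_neg_mul P.a x i
  calc _ = (wt P.a (-x) i * wt P.a x i) ^ 2 * ‖cf (DD P f i) ξ x‖ ^ 2 := by rw [h1]; ring
    _ = wt P.a x i ^ 2 * (wt P.a (-x) i ^ 2 * ‖cf (DD P f i) ξ x‖ ^ 2) := by ring
    _ = _ := by rw [h]; ring

variable (P) in
/-- the coupling constant -/
noncomputable def eps : ℝ := π ^ 2 / (2 * P.c ^ 2)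

theorem eps_pos : 0 < eps P := by
  have := P.hc; have := Real.pi_pos; unfold eps; positivity

theorem fq_1 (ξ : Fin 3 → ℤ) : fq P ξ 1 = 2 * π / (2 * √2 * P.c) * s1 ⟨ξ 1, ξ 0⟩ := by
  have := P.hc.ne'
  have := sqrt2_pos.ne'
  simp [fq, om, Psi, ev, Fin.sum_univ_three, s1_apply]
  field_simp
  ring

theorem fq_2 (ξ : Fin 3 → ℤ) : fq P ξ 2 = -(2 * π / (2 * √2 * P.c) * s2 ⟨ξ 1, ξ 0⟩) := by
  have := P.hc.ne'
  have := sqrt2_pos.ne'
  simp [fq, om, Psi, ev, Fin.sum_univ_three, s2_apply]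
  field_simp
  ring

theorem fq_3 (ξ : Fin 3 → ℤ) : fq P ξ 3 = 2 * π / P.δ * ξ 2 := by
  simp [fq, om, Psi, ev, Fin.sum_univ_three]
  field_simp

theorem eps_eq : (2 * π / (2 * √2 * P.c)) ^ 2 = eps P := by
  have := P.hc.ne'
  have := sqrt2_pos.ne'
  rw [eps]
  field_simp
  rw [Real.sq_sqrt (by norm_num)]

variable (P) in
/-- the potential seen by the mode `ξ` -/
noncomputable def QQ (ξ : Fin 3 → ℤ) (x : ℝ) : ℝ :=
  (wt P.a x 1 * fq P ξ 1) ^ 2 + (wt P.a x 2 * fq P ξ 2) ^ 2 + (wt P.a x 3 * fq P ξ 3) ^ 2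

theorem continuous_QQ (ξ : Fin 3 → ℤ) : Continuous (QQ P ξ) := by
  unfold QQ
  simp only [wt_1, wt_2, wt_3]
  fun_prop

theorem QQ_ge {ξ : Fin 3 → ℤ} (h : (⟨ξ 1, ξ 0⟩ : Z2) ≠ 0) :
    ∃ x₀, ∀ x, eps P * WW P.a (x - x₀) ≤ QQ P ξ x := by
  have h1 := one_le_abs_s1_mul_s2 h
  rw [abs_mul] at h1
  set A := |s1 ⟨ξ 1, ξ 0⟩| with hA
  set B := |s2 ⟨ξ 1, ξ 0⟩| with hB
  have hA0 : 0 < A := by
    rcases (abs_nonneg (s1 ⟨ξ 1, ξ 0⟩)).eq_or_lt with h | h
    · rw [← hA] at h; rw [← h] at h1; norm_num at h1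
    · exact h
  have hB0 : 0 < B := by
    rcases (abs_nonneg (s2 ⟨ξ 1, ξ 0⟩)).eq_or_lt with h | h
    · rw [← hB] at h; rw [← h] at h1; norm_num at h1
    · exact h
  refine ⟨Real.log (A / B) / (2 * P.a), fun x => ?_⟩
  have ha := P.ha.ne'
  have e1 : Real.exp (-(2 * P.a * (x - Real.log (A / B) / (2 * P.a))))
      = Real.exp (-(P.a * x)) ^ 2 * (A / B) := by
    rw [← Real.exp_log (div_pos hA0 hB0), sq, ← Real.exp_add, ← Real.exp_add,
      Real.log_exp]
    congr 1; field_simp; ring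
  have e2 : Real.exp (2 * P.a * (x - Real.log (A / B) / (2 * P.a)))
      = Real.exp (P.a * x) ^ 2 * (B / A) := by
    rw [← inv_div A B, ← Real.exp_log (div_pos hA0 hB0), ← Real.exp_neg, sq, ← Real.exp_add,
      ← Real.exp_add, Real.log_exp]
    congr 1; field_simp; ring
  have e3 : A / B ≤ A ^ 2 := by rw [div_le_iff₀ hB0]; nlinarith
  have e4 : B / A ≤ B ^ 2 := by rw [div_le_iff₀ hA0]; nlinarith
  have e5 : QQ P ξ x = eps P * (Real.exp (-(P.a * x)) ^ 2 * A ^ 2 + Real.exp (P.a * x) ^ 2 * B ^ 2)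
      + (wt P.a x 3 * fq P ξ 3) ^ 2 := by
    rw [QQ, fq_1, fq_2, ← eps_eq, hA, hB, sq_abs, sq_abs, wt_1, wt_2]; ring
  rw [e5, WW, e1, e2]
  refine le_add_of_le_of_nonneg (mul_le_mul_of_nonneg_left (add_le_add
    (mul_le_mul_of_nonneg_left e3 (sq_nonneg _)) (mul_le_mul_of_nonneg_left e4 (sq_nonneg _)))
    eps_pos.le) (sq_nonneg _)

theorem mode_real (hδ : lam0 P.a (eps P) ≤ (2 * π / P.δ) ^ 2) {ξ : Fin 3 → ℤ} (hξ : ξ ≠ 0)
    {φ : ℝ → ℝ} (h1 : ContDiff ℝ 1 φ) (h2 : HasCompactSupport φ) :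
    lam0 P.a (eps P) * ∫ x, φ x ^ 2 ≤ (∫ x, deriv φ x ^ 2) + ∫ x, φ x ^ 2 * QQ P ξ x := by
  by_cases h : (⟨ξ 1, ξ 0⟩ : Z2) = 0
  · refine lam_const h1 h2 (continuous_QQ ξ) fun x => hδ.trans ?_
    have h3 : ξ 2 ≠ 0 := by
      intro h3
      refine hξ (funext fun i => ?_)
      fin_cases i
      · exact congrArg Zsqrtd.im h
      · exact congrArg Zsqrtd.re h
      · exact h3
    have h4 : (1 : ℝ) ≤ (ξ 2 : ℝ) ^ 2 := by
      have : (1 : ℤ) ≤ ξ 2 ^ 2 := by
        have := sq_pos_of_ne_zero h3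
        omega
      exact_mod_cast this
    rw [QQ, fq_3, wt_3, one_mul, mul_pow (2 * π / P.δ)]
    nlinarith [sq_nonneg (wt P.a x 1 * fq P ξ 1), sq_nonneg (wt P.a x 2 * fq P ξ 2),
      sq_nonneg (2 * π / P.δ)]
  · obtain ⟨x₀, hx₀⟩ := QQ_ge (P := P) h
    exact lam0_shift eps_pos.le h1 h2 (continuous_QQ ξ) x₀ hx₀

theorem young {η : ℝ} (hη : 0 < η) (u v : ℝ) :
    (u + v) ^ 2 ≤ (1 + η) * v ^ 2 + (1 + η⁻¹) * u ^ 2 := by
  have h : 0 ≤ η⁻¹ * (η * v - u) ^ 2 := by positivity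
  have h2 : η⁻¹ * (η * v - u) ^ 2 = η * v ^ 2 - 2 * u * v + η⁻¹ * u ^ 2 := by
    field_simp; ring
  nlinarith

theorem mode_part {lam : ℝ} {Q : ℝ → ℝ} (hQ : Continuous Q)
    (hm : ∀ φ : ℝ → ℝ, ContDiff ℝ 1 φ → HasCompactSupport φ →
      lam * ∫ x, φ x ^ 2 ≤ (∫ x, deriv φ x ^ 2) + ∫ x, φ x ^ 2 * Q x)
    {u u' : ℝ → ℝ} (hu : ∀ x, HasDerivAt u (u' x) x) (hu' : Continuous u') {η : ℝ} (hη : 0 < η)
    (T : ℝ) :
    lam * ∫ x, cut T x ^ 2 * u x ^ 2 ≤ (1 + η) * (∫ x, cut T x ^ 2 * u' x ^ 2)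
      + (1 + η⁻¹) * (∫ x, deriv (cut T) x ^ 2 * u x ^ 2) + ∫ x, cut T x ^ 2 * (Q x * u x ^ 2) := by
  have huc : Continuous u := continuous_iff_continuousAt.2 fun x => (hu x).continuousAt
  have hd : ∀ x, HasDerivAt (fun x => cut T x * u x) (deriv (cut T) x * u x + cut T x * u' x) x :=
    fun x => ((contDiff_cut T).differentiable one_ne_zero x).hasDerivAt.mul (hu x)
  have hde : deriv (fun x => cut T x * u x) = fun x => deriv (cut T) x * u x + cut T x * u' x :=
    funext fun x => (hd x).deriv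
  have hc := continuous_cut T
  have hc' := continuous_deriv_cut T
  have h1 : ContDiff ℝ 1 (fun x => cut T x * u x) := by
    rw [contDiff_one_iff_deriv, hde]
    exact ⟨fun x => (hd x).differentiableAt, by fun_prop⟩
  have h2 : HasCompactSupport (fun x => cut T x * u x) := (hasCompactSupport_cut T).mul_right
  have h3 := hm _ h1 h2
  have i1 := integrable_sq_mul hc (hasCompactSupport_cut T) (hu'.fun_pow 2)
  have i2 := integrable_sq_mul hc' (hasCompactSupport_cut T).deriv (huc.fun_pow 2)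
  have h4 : ∫ x, deriv (fun x => cut T x * u x) x ^ 2 ≤ (1 + η) * (∫ x, cut T x ^ 2 * u' x ^ 2)
      + (1 + η⁻¹) * (∫ x, deriv (cut T) x ^ 2 * u x ^ 2) := by
    rw [← integral_const_mul, ← integral_const_mul, ← integral_add (i1.const_mul _) (i2.const_mul _)]
    refine integral_mono (integrable_sq (h1.continuous_deriv le_rfl) h2.deriv)
      ((i1.const_mul _).add (i2.const_mul _)) fun x => ?_
    simp only [hde, ← mul_pow]
    exact young hη _ _
  have e1 : ∀ x, (cut T x * u x) ^ 2 * Q x = cut T x ^ 2 * (Q x * u x ^ 2) := fun x => by ring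
  simp only [e1] at h3
  simp only [mul_pow] at h3
  linarith

theorem norm_sq_split (z : ℂ) : ‖z‖ ^ 2 = z.re ^ 2 + z.im ^ 2 := by
  rw [Complex.sq_norm, Complex.normSq_apply]; ring

theorem integral_split {ρ Q : ℝ → ℝ} (h1 : Continuous ρ) (h2 : HasCompactSupport ρ)
    (hQ : Continuous Q) {c : ℝ → ℂ} (hc : Continuous c) :
    ∫ x, ρ x ^ 2 * (Q x * ‖c x‖ ^ 2)
      = (∫ x, ρ x ^ 2 * (Q x * (c x).re ^ 2)) + ∫ x, ρ x ^ 2 * (Q x * (c x).im ^ 2) := by
  rw [← integral_add (integrable_sq_mul h1 h2 (by fun_prop)) (integrable_sq_mul h1 h2 (by fun_prop))]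
  simp only [norm_sq_split, mul_add]

theorem integral_split' {ρ : ℝ → ℝ} (h1 : Continuous ρ) (h2 : HasCompactSupport ρ)
    {c : ℝ → ℂ} (hc : Continuous c) :
    ∫ x, ρ x ^ 2 * ‖c x‖ ^ 2 = (∫ x, ρ x ^ 2 * (c x).re ^ 2) + ∫ x, ρ x ^ 2 * (c x).im ^ 2 := by
  simpa using integral_split h1 h2 (Q := fun _ => 1) continuous_const hc

/-- weighted mode energies -/
noncomputable def md (ρ : ℝ → ℝ) (h : MM P → ℝ) (ξ : Fin 3 → ℤ) : ℝ :=
  ∫ x, ρ x ^ 2 * ‖cf h ξ x‖ ^ 2

theorem md_nonneg (ρ : ℝ → ℝ) (h : MM P → ℝ) (ξ : Fin 3 → ℤ) : 0 ≤ md ρ h ξ :=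
  integral_nonneg fun x => by positivity

theorem mode_ineq (hδ : lam0 P.a (eps P) ≤ (2 * π / P.δ) ^ 2) {ξ : Fin 3 → ℤ} (hξ : ξ ≠ 0)
    {f : MM P → ℝ} (hf : ContMDiff (𝓡 4) 𝓘(ℝ, ℝ) 1 f) {η : ℝ} (hη : 0 < η) (T : ℝ) :
    lam0 P.a (eps P) * md (cut T) f ξ ≤ (1 + η) * (∑ i, md (cut T) (DD P f i) ξ)
      + (1 + η⁻¹) * md (deriv (cut T)) f ξ := by
  have c0 := continuous_cf hf.continuous ξ
  have c1 := fun i => continuous_cf (continuous_DD hf i) ξ
  have hre := mode_part (continuous_QQ ξ) (fun φ => mode_real hδ hξ (φ := φ))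
    (u := fun x => (cf f ξ x).re) (u' := fun x => (cf (DD P f 0) ξ x).re)
    (fun x => Complex.reCLM.hasFDerivAt.comp_hasDerivAt x (hasDerivAt_cf hf ξ x))
    (Complex.continuous_re.comp (c1 0)) hη T
  have him := mode_part (continuous_QQ ξ) (fun φ => mode_real hδ hξ (φ := φ))
    (u := fun x => (cf f ξ x).im) (u' := fun x => (cf (DD P f 0) ξ x).im)
    (fun x => Complex.imCLM.hasFDerivAt.comp_hasDerivAt x (hasDerivAt_cf hf ξ x))
    (Complex.continuous_im.comp (c1 0)) hη T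
  have hc := continuous_cut T
  have hs := hasCompactSupport_cut T
  have e1 := integral_split' hc hs c0
  have e2 := integral_split' hc hs (c1 0)
  have e3 := integral_split' (continuous_deriv_cut T) hs.deriv c0
  have e4 := integral_split hc hs (continuous_QQ (P := P) ξ) c0
  have e5 : ∫ x, cut T x ^ 2 * (QQ P ξ x * ‖cf f ξ x‖ ^ 2) = md (cut T) (DD P f 1) ξ
      + md (cut T) (DD P f 2) ξ + md (cut T) (DD P f 3) ξ := by
    have i := fun j => integrable_sq_mul hc hs ((c1 j).norm.fun_pow 2)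
    rw [md, md, md, ← integral_add (i 1) (i 2), ← integral_add ((i 1).fun_add (i 2)) (i 3)]
    refine integral_congr_ae (Eventually.of_forall fun x => ?_)
    simp only
    rw [norm_cf_dir hf (by decide), norm_cf_dir hf (by decide), norm_cf_dir hf (by decide), QQ]
    ring
  have n1 := mul_nonneg hη.le (md_nonneg (cut T) (DD P f 1) ξ)
  have n2 := mul_nonneg hη.le (md_nonneg (cut T) (DD P f 2) ξ)
  have n3 := mul_nonneg hη.le (md_nonneg (cut T) (DD P f 3) ξ)
  rw [Fin.sum_univ_four]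
  change md (cut T) f ξ = _ at e1
  change md (cut T) (DD P f 0) ξ = _ at e2
  change md (deriv (cut T)) f ξ = _ at e3
  rw [e1, e2, e3]
  rw [e5] at e4
  nlinarith

theorem hasSum_md {ρ : ℝ → ℝ} (h1 : Continuous ρ) (h2 : HasCompactSupport ρ) {h : MM P → ℝ}
    (hh : Continuous h) : HasSum (md ρ h) (∫ x, ρ x ^ 2 * fib P (fun y => h y ^ 2) x) := by
  have i := fun ξ => integrable_sq_mul h1 h2 ((continuous_cf hh ξ).norm.fun_pow 2)
  have i0 := integrable_sq_mul h1 h2 (continuous_fib (P := P) (hh.fun_pow 2))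
  have hs := fun x => (hasSum_cf hh x).mul_left (ρ x ^ 2)
  have h3 := hasSum_integral_of_summable_integral_norm (μ := volume)
    (F := fun ξ x => ρ x ^ 2 * ‖cf h ξ x‖ ^ 2) i (by
      refine summable_of_sum_le (c := ∫ x, ρ x ^ 2 * fib P (fun y => h y ^ 2) x)
        (fun ξ => integral_nonneg fun x => norm_nonneg _) fun S => ?_
      rw [← integral_finsetSum _ fun ξ _ => (i ξ).norm]
      refine integral_mono (integrable_finsetSum _ fun ξ _ => (i ξ).norm) i0 fun x => ?_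
      simp only
      refine le_trans (le_of_eq (Finset.sum_congr rfl fun ξ _ => ?_))
        (sum_le_hasSum S (fun ξ _ => by positivity) (hs x))
      exact Real.norm_of_nonneg (by positivity))
  simp only [fun x => (hs x).tsum_eq] at h3
  exact h3

theorem fib_sum {ι : Type} (S : Finset ι) {h : ι → MM P → ℝ} (hh : ∀ i, Continuous (h i)) (x : ℝ) :
    fib P (fun y => ∑ i ∈ S, h i y) x = ∑ i ∈ S, fib P (h i) x := by
  unfold fib
  exact integral_finsetSum _ fun i _ => ((hh i).comp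
    (continuous_io_right x)).integrable_of_hasCompactSupport (HasCompactSupport.of_compactSpace _)

theorem md_zero (ρ : ℝ → ℝ) (h : MM P → ℝ) : md ρ h 0 = ∫ x, ρ x ^ 2 * fib P h x ^ 2 := by
  simp [md, cf_zero]

theorem lower_eta (hδ : lam0 P.a (eps P) ≤ (2 * π / P.δ) ^ 2) {f : MM P → ℝ}
    (hf : ContMDiff (𝓡 4) 𝓘(ℝ, ℝ) 1 f) {η : ℝ} (hη : 0 < η) :
    0 ≤ ∫ x in (0 : ℝ)..P.L, ((1 + η) * (fib P (fun y => ∑ i, DD P f i y ^ 2) x
      - fib P (DD P f 0) x ^ 2) - lam0 P.a (eps P) * (fib P (fun y => f y ^ 2) x - fib P f x ^ 2)) := by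
  have cD := continuous_DD hf
  have c1 : Continuous (fun y => ∑ i, DD P f i y ^ 2) := by fun_prop
  have f1 := continuous_fib c1
  have f2 := continuous_fib (cD 0)
  have f3 := continuous_fib (P := P) (hf.continuous.fun_pow 2)
  have f4 := continuous_fib hf.continuous
  have p1 := periodic_fib c1
  have p2 := periodic_fib (cD 0)
  have p3 := periodic_fib (P := P) (hf.continuous.fun_pow 2)
  have p4 := periodic_fib hf.continuous
  refine folner (C := fun x => (1 + η⁻¹) * fib P (fun y => f y ^ 2) x) P.L_pos (by fun_prop)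
    (by fun_prop) (fun x => by simp only [p1 x, p2 x, p3 x, p4 x]) (fun x => by simp only [p3 x])
    fun T _ => ?_
  have hc := continuous_cut T
  have hs := hasCompactSupport_cut T
  have s1 := (hasSum_md hc hs hf.continuous).mul_left (lam0 P.a (eps P))
  have s2 := (hasSum_sum (s := Finset.univ) fun i _ => hasSum_md hc hs (cD i)).mul_left (1 + η)
  have s3 := (hasSum_md (continuous_deriv_cut T) hs.deriv hf.continuous).mul_left (1 + η⁻¹)
  have s4 := hasSum_ite_eq (0 : Fin 3 → ℤ) (lam0 P.a (eps P) * md (cut T) f 0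
    - (1 + η) * md (cut T) (DD P f 0) 0)
  have h1 := hasSum_le (fun ξ => ?_) s1 ((s2.add s3).add s4)
  · have e1 : ∑ i, ∫ x, cut T x ^ 2 * fib P (fun y => DD P f i y ^ 2) x
        = ∫ x, cut T x ^ 2 * fib P (fun y => ∑ i, DD P f i y ^ 2) x := by
      rw [← integral_finsetSum _ fun i _ => integrable_sq_mul hc hs
        (continuous_fib ((cD i).fun_pow 2))]
      simp only [fib_sum _ fun i => (cD i).fun_pow 2, Finset.mul_sum]
    rw [e1, md_zero, md_zero] at h1
    have i1 := integrable_sq_mul hc hs f1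
    have i2 := integrable_sq_mul hc hs (f2.fun_pow 2)
    have i3 := integrable_sq_mul hc hs f3
    have i4 := integrable_sq_mul hc hs (f4.fun_pow 2)
    have e2 : ∫ x, cut T x ^ 2 * ((1 + η) * (fib P (fun y => ∑ i, DD P f i y ^ 2) x
        - fib P (DD P f 0) x ^ 2) - lam0 P.a (eps P) * (fib P (fun y => f y ^ 2) x - fib P f x ^ 2))
        = (1 + η) * ((∫ x, cut T x ^ 2 * fib P (fun y => ∑ i, DD P f i y ^ 2) x)
          - ∫ x, cut T x ^ 2 * fib P (DD P f 0) x ^ 2) - lam0 P.a (eps P) *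
          ((∫ x, cut T x ^ 2 * fib P (fun y => f y ^ 2) x) - ∫ x, cut T x ^ 2 * fib P f x ^ 2) := by
      rw [← integral_sub i1 i2, ← integral_sub i3 i4, ← integral_const_mul, ← integral_const_mul,
        ← integral_sub ((i1.sub' i2).const_mul _) ((i3.sub' i4).const_mul _)]
      refine integral_congr_ae (Eventually.of_forall fun x => ?_)
      simp only
      ring
    have e3 : ∫ x, deriv (cut T) x ^ 2 * ((1 + η⁻¹) * fib P (fun y => f y ^ 2) x)
        = (1 + η⁻¹) * ∫ x, deriv (cut T) x ^ 2 * fib P (fun y => f y ^ 2) x := by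
      rw [← integral_const_mul]
      exact integral_congr_ae (Eventually.of_forall fun x => by simp only; ring)
    rw [e2, e3]
    linarith
  · by_cases hξ : ξ = 0
    · subst hξ
      rw [if_pos rfl, Fin.sum_univ_four]
      have h0 : 0 ≤ 1 + η := by linarith
      have n1 := mul_nonneg h0 (md_nonneg (cut T) (DD P f 1) 0)
      have n2 := mul_nonneg h0 (md_nonneg (cut T) (DD P f 2) 0)
      have n3 := mul_nonneg h0 (md_nonneg (cut T) (DD P f 3) 0)
      have n4 := mul_nonneg (show 0 ≤ 1 + η⁻¹ by positivity) (md_nonneg (deriv (cut T)) f 0)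
      linarith
    · rw [if_neg hξ, add_zero]
      exact mode_ineq hδ hξ hf hη T

/-- the spectral gap -/
theorem lower (hδ : lam0 P.a (eps P) ≤ (2 * π / P.δ) ^ 2) (hL : lam0 P.a (eps P) * P.L ^ 2 ≤ 1)
    {f : MM P → ℝ} (hf : ContMDiff (𝓡 4) 𝓘(ℝ, ℝ) 1 f) (h0 : ∫ y, f y ∂mu P = 0) :
    lam0 P.a (eps P) * ∫ y, f y ^ 2 ∂mu P ≤ ∫ y, gradSq (RM P) f y ∂mu P := by
  have cD := continuous_DD hf
  have c1 : Continuous (fun y => ∑ i, DD P f i y ^ 2) := by fun_prop
  have f1 := continuous_fib c1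
  have f2 := continuous_fib (cD 0)
  have f3 := continuous_fib (P := P) (hf.continuous.fun_pow 2)
  have f4 := continuous_fib hf.continuous
  have hJ := JJ_pos P
  simp only [gradSq_RM]
  rw [integral_mu c1, integral_mu (hf.continuous.fun_pow 2)]
  rw [integral_mu hf.continuous, mul_eq_zero, or_iff_right hJ.ne'] at h0
  have hp := poincare P.L_pos (hasDerivAt_fib hf) f2 h0
  set E := ∫ x in (0 : ℝ)..P.L, fib P (fun y => ∑ i, DD P f i y ^ 2) x
  set N := ∫ x in (0 : ℝ)..P.L, fib P (fun y => f y ^ 2) x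
  set A := ∫ x in (0 : ℝ)..P.L, fib P (DD P f 0) x ^ 2
  set B := ∫ x in (0 : ℝ)..P.L, fib P f x ^ 2
  set lam := lam0 P.a (eps P)
  have hl : 0 < lam := lam0_pos eps_pos
  have hA : 0 ≤ A := intervalIntegral.integral_nonneg P.L_pos.le fun x _ => sq_nonneg _
  have h1 : ∀ η, 0 < η → lam * (N - B) ≤ (1 + η) * (E - A) := by
    intro η hη
    have h := lower_eta hδ hf hη
    rw [intervalIntegral.integral_sub, intervalIntegral.integral_const_mul,
      intervalIntegral.integral_const_mul, intervalIntegral.integral_sub,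
      intervalIntegral.integral_sub] at h
    · linarith
    all_goals apply Continuous.intervalIntegrable; fun_prop
  have h2 : lam * (N - B) ≤ E - A := by
    have h3 : Tendsto (fun η : ℝ => (1 + η) * (E - A)) (𝓝[>] 0) (𝓝 ((1 + 0) * (E - A))) :=
      ((Continuous.tendsto (by fun_prop) 0)).mono_left nhdsWithin_le_nhds
    have h4 := ge_of_tendsto h3 (eventually_nhdsWithin_of_forall fun η hη => h1 η hη)
    simpa using h4
  have h3 : lam * B ≤ A := by nlinarith [mul_le_mul_of_nonneg_left hp hl.le]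
  nlinarith

end Pool.Agent.H361Z.Sol
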