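import Mathlib
import Pool.Agent.H361Z.Sol.Four

set_option autoImplicit false

open MeasureTheory Set Filter UnitAddTorus
open scoped Topology Manifold ContDiff Real ComplexConjugate

namespace Pool.Agent.H361Z.Sol

/-- cosine mode -/
noncomputable def Cc (k : Fin 3 → ℤ) (t : T3) : ℝ := (mFourier k t).re

/-- sine mode -/
noncomputable def Ss (k : Fin 3 → ℤ) (t : T3) : ℝ := (mFourier k t).im

theorem continuous_Cc (k : Fin 3 → ℤ) : Continuous (Cc k) :=
  Complex.continuous_re.comp (mFourier k).continuous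

theorem continuous_Ss (k : Fin 3 → ℤ) : Continuous (Ss k) :=
  Complex.continuous_im.comp (mFourier k).continuous

theorem intT {E : Type} [NormedAddCommGroup E] {u : T3 → E} (h : Continuous u) : Integrable u tm :=
  h.integrable_of_hasCompactSupport (HasCompactSupport.of_compactSpace _)

theorem integral_mFourier (k : Fin 3 → ℤ) : ∫ t, mFourier k t ∂tm = if k = 0 then 1 else 0 := by
  have h := orthonormal_iff_ite.1 (orthonormal_mFourier (d := Fin 3)) 0 k
  rw [ContinuousMap.inner_toLp] at h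
  simp only [mFourier_zero, ContinuousMap.one_apply, map_one, mul_one] at h
  exact Eq.trans h (if_congr eq_comm rfl rfl)

theorem integral_Cc (k : Fin 3 → ℤ) : ∫ t, Cc k t ∂tm = if k = 0 then 1 else 0 := by
  have h := integral_re (intT (mFourier k).continuous)
  rw [integral_mFourier] at h
  refine Eq.trans h ?_
  split_ifs <;> simp

theorem Cc_mul (k l : Fin 3 → ℤ) (t : T3) :
    Cc k t * Cc l t = (Cc (k + -l) t + Cc (k + l) t) / 2 := by
  simp only [Cc, mFourier_add, mFourier_neg, Complex.mul_re, Complex.conj_re, Complex.conj_im]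
  ring

theorem Ss_mul (k l : Fin 3 → ℤ) (t : T3) :
    Ss k t * Ss l t = (Cc (k + -l) t - Cc (k + l) t) / 2 := by
  simp only [Cc, Ss, mFourier_add, mFourier_neg, Complex.mul_re, Complex.conj_re, Complex.conj_im]
  ring

/-- the frequency vector of the `m`-th power of the unit -/
def kv (m : ℤ) : Fin 3 → ℤ := ![(nu m).im, (nu m).re, 0]

theorem kv_add_ne (m m' : ℤ) : kv m + kv m' ≠ 0 := by
  intro h
  have h0 : (nu m).im + (nu m').im = 0 := congrFun h 0
  have h1 : (nu m).re + (nu m').re = 0 := congrFun h 1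
  have h2 : nu m + nu m' = 0 := Zsqrtd.ext h1 h0
  have h3 := congrArg s1 h2
  rw [map_add, s1_nu, s1_nu, map_zero] at h3
  linarith [Real.exp_pos (m * ell), Real.exp_pos (m' * ell)]

theorem kv_ne (m : ℤ) : kv m ≠ 0 := fun h => kv_add_ne m m (by rw [h, add_zero])

theorem kv_sub_eq {m m' : ℤ} : kv m + -kv m' = 0 ↔ m = m' := by
  refine ⟨fun h => ?_, fun h => by rw [h, add_neg_cancel]⟩
  rw [add_neg_eq_zero] at h
  have h2 : nu m = nu m' := Zsqrtd.ext (congrFun h 1) (congrFun h 0)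
  have h3 := congrArg s1 h2
  rw [s1_nu, s1_nu, Real.exp_eq_exp] at h3
  exact_mod_cast mul_right_cancel₀ ell_pos.ne' h3

theorem integral_CC (m m' : ℤ) :
    ∫ t, Cc (kv m) t * Cc (kv m') t ∂tm = if m = m' then 1 / 2 else 0 := by
  simp only [Cc_mul]
  rw [integral_div, integral_add (intT (continuous_Cc _)) (intT (continuous_Cc _)), integral_Cc,
    integral_Cc, if_neg (kv_add_ne m m')]
  simp only [kv_sub_eq]
  split_ifs <;> norm_num

theorem integral_SS (m m' : ℤ) :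
    ∫ t, Ss (kv m) t * Ss (kv m') t ∂tm = if m = m' then 1 / 2 else 0 := by
  simp only [Ss_mul]
  rw [integral_div, integral_sub (intT (continuous_Cc _)) (intT (continuous_Cc _)), integral_Cc,
    integral_Cc, if_neg (kv_add_ne m m')]
  simp only [kv_sub_eq]
  split_ifs <;> norm_num

theorem gram {J : Type} (S : Finset J) {ix : J → ℤ} (hi : Function.Injective ix) {u : ℤ → T3 → ℝ}
    (hu : ∀ m, Continuous (u m))
    (ho : ∀ m m', ∫ t, u m t * u m' t ∂tm = if m = m' then 1 / 2 else 0) (r : J → ℝ) :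
    ∫ t, (∑ j ∈ S, r j * u (ix j) t) ^ 2 ∂tm = ∑ j ∈ S, r j ^ 2 / 2 := by
  classical
  simp only [sq, Finset.sum_mul_sum]
  rw [integral_finsetSum _ fun j _ => integrable_finsetSum _ fun l _ => intT (by fun_prop)]
  refine Finset.sum_congr rfl fun j hj => ?_
  rw [integral_finsetSum _ fun l _ => intT (by fun_prop)]
  have e : ∀ l, ∫ t, r j * u (ix j) t * (r l * u (ix l) t) ∂tm
      = if j = l then r j * r l / 2 else 0 := by
    intro l
    have : ∀ t, r j * u (ix j) t * (r l * u (ix l) t) = r j * r l * (u (ix j) t * u (ix l) t) :=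
      fun t => by ring
    simp only [this, integral_const_mul, ho, hi.eq_iff]
    split_ifs <;> ring
  simp only [e, Finset.sum_ite_eq, if_pos hj]

theorem gram_const {J : Type} (S : Finset J) {ix : J → ℤ} (hi : Function.Injective ix) (r₀ : ℝ)
    (r : J → ℝ) :
    ∫ t, (r₀ + ∑ j ∈ S, r j * Cc (kv (ix j)) t) ^ 2 ∂tm = r₀ ^ 2 + ∑ j ∈ S, r j ^ 2 / 2 := by
  have hc : ∀ m, Continuous (Cc (kv m)) := fun m => continuous_Cc _
  have h1 := gram S hi (u := fun m => Cc (kv m)) hc integral_CC r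
  have h2 : ∫ t, ∑ j ∈ S, r j * Cc (kv (ix j)) t ∂tm = 0 := by
    rw [integral_finsetSum _ fun l _ => intT (by fun_prop)]
    simp [integral_const_mul, integral_Cc, kv_ne]
  simp only [add_sq]
  rw [integral_add (intT (by fun_prop)) (intT (by fun_prop)),
    integral_add (intT (by fun_prop)) (intT (by fun_prop)), integral_const_mul, h1, h2]
  simp

variable (P : Par)

/-- the constant in the phase -/
noncomputable def kap : ℝ := 2 * π / (2 * √2 * P.c)

/-- the phase -/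
noncomputable def ph (m : ℤ) (p : Eu 4) : ℝ := kap P * (s1 (nu m) * p 1 - s2 (nu m) * p 2)

theorem ph_Phi (m : ℤ) (x : ℝ) (θ : R3) :
    ph P m (Phi P (x, θ)) = 2 * π * ∑ j, kv m j * θ j := by
  have := P.hc.ne'
  have := sqrt2_pos.ne'
  simp only [ph, kap, Phi_1, Phi_2, s1_apply, s2_apply, Fin.sum_univ_three, kv]
  simp
  field_simp
  ring

theorem cos_ph (m : ℤ) (x : ℝ) (θ : R3) :
    Real.cos (ph P m (Phi P (x, θ))) = Cc (kv m) (co θ) := by
  rw [ph_Phi, Cc, mFourier_co, Complex.exp_ofReal_mul_I_re]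

theorem sin_ph (m : ℤ) (x : ℝ) (θ : R3) :
    Real.sin (ph P m (Phi P (x, θ))) = Ss (kv m) (co θ) := by
  rw [ph_Phi, Ss, mFourier_co, Complex.exp_ofReal_mul_I_im]

variable {P} in
theorem ph_smul (m : ℤ) (γ : Gam P) (p : Eu 4) :
    ph P m (γ • p) = ph P (m - P.n * γ.k) p + ((nu m * γ.w).im : ℤ) * (2 * π) := by
  have := P.hc.ne'
  have := sqrt2_pos.ne'
  have h : s1 (nu m * γ.w) - s2 (nu m * γ.w) = 2 * √2 * ((nu m * γ.w).im : ℤ) := by
    rw [s1_apply, s2_apply]; ring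
  rw [map_mul, map_mul] at h
  rw [ph, ph, smul_1, smul_2, sub_eq_add_neg m, nu_add, map_mul, map_mul]
  have h2 : kap P * (P.c * (2 * √2 * ((nu m * γ.w).im : ℤ))) = ((nu m * γ.w).im : ℤ) * (2 * π) := by
    rw [kap]; field_simp
  rw [← h2, ← h]
  ring

variable (φ : ℝ → ℝ)

/-- a single wave -/
noncomputable def bb (m : ℤ) (p : Eu 4) : ℝ := φ (p 0 - m * P.τ) * Real.cos (ph P m p)

variable {P} in
theorem bb_smul (m : ℤ) (γ : Gam P) (p : Eu 4) :
    bb P φ m (γ • p) = bb P φ (m - P.n * γ.k) p := by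
  rw [bb, bb, ph_smul, Real.cos_add_int_mul_two_pi, smul_0]
  congr 2
  rw [Par.L]; push_cast; ring

/-- the sum over an orbit -/
noncomputable def FF (i : ℤ) (p : Eu 4) : ℝ := ∑' q : ℤ, bb P φ (i + q * P.n) p

variable {P} in
theorem FF_smul (i : ℤ) (γ : Gam P) (p : Eu 4) : FF P φ i (γ • p) = FF P φ i p := by
  unfold FF
  rw [← (Equiv.subRight γ.k).tsum_eq (fun q => bb P φ (i + q * P.n) p)]
  refine tsum_congr fun q => ?_
  rw [bb_smul, Equiv.subRight_apply]
  congr 1; ring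

/-- the test functions on the manifold -/
noncomputable def ff (i : ℤ) : MM P → ℝ :=
  Quotient.lift (FF P φ i) fun _ q ⟨γ, h⟩ => by rw [← h]; exact FF_smul φ i γ q

theorem ff_pr (i : ℤ) (p : Eu 4) : ff P φ i (pr P p) = FF P φ i p := rfl

theorem exists_fin (R B : ℝ) : ∃ S : Finset ℤ, ∀ q : ℤ, q ∉ S → ∀ i : ℕ, i < P.n → ∀ x : ℝ,
    |x| ≤ B → R ≤ |x - i * P.τ - q * P.L| := by
  set K := ⌈(R + B + P.L) / P.L⌉
  refine ⟨Finset.Icc (-K) K, fun q hq i hi x hx => ?_⟩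
  by_contra h
  push Not at h
  apply hq
  have h0 : 0 ≤ (i : ℝ) * P.τ := mul_nonneg (Nat.cast_nonneg _) P.τ_pos.le
  have h1 : (i : ℝ) * P.τ ≤ P.L :=
    mul_le_mul_of_nonneg_right (by exact_mod_cast hi.le) P.τ_pos.le
  rw [← Finset.mem_coe, Finset.coe_Icc]
  refine int_abs_le P.L_pos ?_
  rw [abs_lt] at h
  rw [abs_le] at hx ⊢
  constructor <;> linarith [h.1, h.2, hx.1, hx.2]

variable {P φ}

theorem FF_eq {R B : ℝ} (hs : ∀ x, R ≤ |x| → φ x = 0) {S : Finset ℤ}
    (hS : ∀ q : ℤ, q ∉ S → ∀ i : ℕ, i < P.n → ∀ x : ℝ, |x| ≤ B → R ≤ |x - i * P.τ - q * P.L|)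
    {i : ℕ} (hi : i < P.n) {p : Eu 4} (hp : |p 0| ≤ B) :
    FF P φ i p = ∑ q ∈ S, bb P φ (i + q * P.n) p := by
  refine tsum_eq_sum fun q hq => ?_
  rw [bb, hs, zero_mul]
  convert hS q hq i hi _ hp using 2
  rw [Par.L]; push_cast; ring

theorem contDiff_bb (h1 : ContDiff ℝ 1 φ) (m : ℤ) : ContDiff ℝ 1 (bb P φ m) := by
  have h : ∀ i, ContDiff ℝ 1 fun p : Eu 4 => p i := fun i => (pj i).contDiff
  exact (h1.comp ((h 0).sub contDiff_const)).mul (Real.contDiff_cos.comp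
    (contDiff_const.mul ((contDiff_const.mul (h 1)).sub (contDiff_const.mul (h 2)))))

theorem eventually_abs_le (p : Eu 4) {B : ℝ} (h : |p 0| < B) : ∀ᶠ q in 𝓝 p, |q 0| ≤ B := by
  have hc : Continuous fun q : Eu 4 => |q 0| := by fun_prop
  exact (hc.continuousAt.eventually_lt continuousAt_const h).mono fun _ h => h.le

theorem contMDiff_ff (h1 : ContDiff ℝ 1 φ) {R : ℝ} (hs : ∀ x, R ≤ |x| → φ x = 0) {i : ℕ}
    (hi : i < P.n) : ContMDiff (𝓡 4) 𝓘(ℝ, ℝ) 1 (ff P φ i) := by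
  refine contMDiff_of_comp_pr (contDiff_iff_contDiffAt.2 fun p => ?_)
  obtain ⟨S, hS⟩ := exists_fin P R (|p 0| + 1)
  refine (ContDiff.sum (s := S) fun q _ => contDiff_bb (P := P) h1 (i + q * P.n)).contDiffAt
    |>.congr_of_eventuallyEq ?_
  filter_upwards [eventually_abs_le p (lt_add_one _)] with q hq
  exact FF_eq hs hS hi hq

theorem hasFDerivAt_bb (h1 : ContDiff ℝ 1 φ) (m : ℤ) (p : Eu 4) : ∃ D : Eu 4 →L[ℝ] ℝ,
    HasFDerivAt (bb P φ m) D p ∧ ∀ v, D v = deriv φ (p 0 - m * P.τ) * Real.cos (ph P m p) * v 0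
      - φ (p 0 - m * P.τ) * Real.sin (ph P m p) * (kap P * (s1 (nu m) * v 1 - s2 (nu m) * v 2)) := by
  have h2 := (h1.differentiable one_ne_zero (p 0 - m * P.τ)).hasDerivAt.comp_hasFDerivAt p
    ((pj 0).hasFDerivAt.sub_const (m * P.τ))
  have h3 := ((((pj 1).hasFDerivAt (x := p)).const_mul (s1 (nu m))).sub
    ((pj 2).hasFDerivAt.const_mul (s2 (nu m)))).const_mul (kap P) |>.cos
  refine ⟨_, h2.mul h3, fun v => ?_⟩
  simp [ph]
  ring

/-- index of a wave -/
def idx (P : Par) {k : ℕ} (j : Fin k × ℤ) : ℤ := ((j.1 : ℕ) : ℤ) + j.2 * P.n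

theorem idx_injective {k : ℕ} (hk : k ≤ P.n) : Function.Injective (idx P (k := k)) := by
  rintro ⟨i, q⟩ ⟨i', q'⟩ h
  simp only [idx] at h
  have h1 : ((i : ℕ) : ℤ) < P.n := by exact_mod_cast i.2.trans_le hk
  have h2 : ((i' : ℕ) : ℤ) < P.n := by exact_mod_cast i'.2.trans_le hk
  have h3 : q = q' := by
    rcases lt_trichotomy q q' with h4 | h4 | h4
    · nlinarith [Int.natCast_nonneg (i' : ℕ), Int.add_one_le_of_lt h4]
    · exact h4
    · nlinarith [Int.natCast_nonneg (i : ℕ), Int.add_one_le_of_lt h4]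
  subst h3
  have h5 : (i : ℕ) = i' := by exact_mod_cast add_right_cancel h
  rw [Fin.ext h5]

variable (P φ) in
/-- the family of test functions -/
noncomputable def fam (k : ℕ) : Fin (k + 1) → MM P → ℝ :=
  Fin.cons (fun _ => 1) fun i : Fin k => ff P φ (i : ℕ)

theorem contMDiff_fam (h1 : ContDiff ℝ 1 φ) {R : ℝ} (hs : ∀ x, R ≤ |x| → φ x = 0) {k : ℕ}
    (hk : k ≤ P.n) (i : Fin (k + 1)) : ContMDiff (𝓡 4) 𝓘(ℝ, ℝ) 1 (fam P φ k i) := by
  refine Fin.cases ?_ (fun i => ?_) i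
  · exact contMDiff_const
  · exact contMDiff_ff h1 hs (i.2.trans_le hk)

theorem contMDiff_comb {k : ℕ} {f : Fin k → MM P → ℝ}
    (hf : ∀ i, ContMDiff (𝓡 4) 𝓘(ℝ, ℝ) 1 (f i)) (a : Fin k → ℝ) :
    ContMDiff (𝓡 4) 𝓘(ℝ, ℝ) 1 (fun y => ∑ i, a i * f i y) :=
  contMDiff_of_comp_pr (ContDiff.sum fun i _ => contDiff_const.mul (contDiff_comp_pr (hf i)))

section Comb

variable (h1 : ContDiff ℝ 1 φ) {R : ℝ} (hs : ∀ x, R ≤ |x| → φ x = 0) {k : ℕ} (hk : k ≤ P.n)
  {S : Finset ℤ} (hS : ∀ q : ℤ, q ∉ S → ∀ i : ℕ, i < P.n → ∀ x : ℝ, |x| ≤ P.L + 1 →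
    R ≤ |x - i * P.τ - q * P.L|) (a : Fin (k + 1) → ℝ)

include hs hk hS in
theorem comb_pr {p : Eu 4} (hp : |p 0| ≤ P.L + 1) : ∑ i, a i * fam P φ k i (pr P p)
    = a 0 + ∑ j ∈ Finset.univ ×ˢ S, a (Fin.succ j.1) * bb P φ (idx P j) p := by
  rw [Fin.sum_univ_succ, Finset.sum_product]
  simp only [fam, Fin.cons_zero, Fin.cons_succ, mul_one, ff_pr]
  congr 1
  refine Finset.sum_congr rfl fun i _ => ?_
  rw [FF_eq hs hS (i.2.trans_le hk) hp, Finset.mul_sum]
  rfl

include h1 hs hk hS in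
theorem DD_comb {p : Eu 4} (hp : |p 0| ≤ P.L) (l : Fin 4) :
    DD P (fun y => ∑ i, a i * fam P φ k i y) l (pr P p) = wt P.a (p 0) l *
      ∑ j ∈ Finset.univ ×ˢ S, a (Fin.succ j.1) *
        (deriv φ (p 0 - idx P j * P.τ) * Real.cos (ph P (idx P j) p) * ev l 0
          - φ (p 0 - idx P j * P.τ) * Real.sin (ph P (idx P j) p) *
            (kap P * (s1 (nu (idx P j)) * ev l 1 - s2 (nu (idx P j)) * ev l 2))) := by
  rw [DD_pr (contMDiff_comb (contMDiff_fam h1 hs hk) a)]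
  congr 1
  choose D hD hD' using fun m => hasFDerivAt_bb (P := P) h1 m p
  have h2 := (HasFDerivAt.fun_sum (u := Finset.univ ×ˢ S)
    fun (j : Fin k × ℤ) _ => (hD (idx P j)).const_mul (a (Fin.succ j.1))).const_add (a 0)
  have h3 := h2.congr_of_eventuallyEq (f₁ := fun p => ∑ i, a i * fam P φ k i (pr P p)) (by
    filter_upwards [eventually_abs_le p (hp.trans_lt (lt_add_one _))] with q hq
    exact comb_pr hs hk hS a hq)
  rw [h3.fderiv]
  simp [hD']

include hs hk hS in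
theorem fib_sq_comb {x : ℝ} (hx : x ∈ Icc 0 P.L) :
    fib P (fun y => (∑ i, a i * fam P φ k i y) ^ 2) x = a 0 ^ 2 +
      ∑ j ∈ Finset.univ ×ˢ S, a (Fin.succ j.1) ^ 2 * φ (x - idx P j * P.τ) ^ 2 / 2 := by
  have hx' : |x| ≤ P.L := by rw [abs_of_nonneg hx.1]; exact hx.2
  have h := gram_const (Finset.univ ×ˢ S) (idx_injective hk) (a 0)
    fun j => a (Fin.succ j.1) * φ (x - idx P j * P.τ)
  simp only [mul_pow] at h
  rw [← h, fib]
  refine integral_congr_ae (Eventually.of_forall fun t => ?_)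
  obtain ⟨θ, rfl⟩ := isOpenQuotientMap_co.surjective t
  simp only [io_co]
  rw [comb_pr hs hk hS a (by rw [Phi_0]; linarith)]
  simp only [bb, cos_ph, Phi_0, mul_assoc]

theorem WW_shift (x : ℝ) (m : ℤ) : (Real.exp (-(P.a * x)) * (kap P * s1 (nu m))) ^ 2
    + (Real.exp (P.a * x) * (kap P * s2 (nu m))) ^ 2 = eps P * WW P.a (x - m * P.τ) := by
  have e1 : Real.exp (-(2 * P.a * (x - m * P.τ)))
      = (Real.exp (-(P.a * x)) * Real.exp (m * ell)) ^ 2 := by
    rw [← Real.exp_add, sq, ← Real.exp_add, ← P.a_τ]; congr 1; ring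
  have e2 : Real.exp (2 * P.a * (x - m * P.τ))
      = (Real.exp (P.a * x) * Real.exp (-(m * ell))) ^ 2 := by
    rw [← Real.exp_add, sq, ← Real.exp_add, ← P.a_τ]; congr 1; ring
  rw [WW, e1, e2, s1_nu, s2_nu, ← eps_eq, kap]
  ring

include h1 hs hk hS in
theorem fib_grad_comb {x : ℝ} (hx : x ∈ Icc 0 P.L) :
    fib P (fun y => ∑ l, DD P (fun y => ∑ i, a i * fam P φ k i y) l y ^ 2) x =
      ∑ j ∈ Finset.univ ×ˢ S, a (Fin.succ j.1) ^ 2 * (deriv φ (x - idx P j * P.τ) ^ 2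
        + eps P * (φ (x - idx P j * P.τ) ^ 2 * WW P.a (x - idx P j * P.τ))) / 2 := by
  have hx' : |x| ≤ P.L := by rw [abs_of_nonneg hx.1]; exact hx.2
  have hc := continuous_DD (contMDiff_comb (contMDiff_fam h1 hs hk) a)
  have hi := idx_injective (k := k) hk
  rw [fib_sum _ fun l => (hc l).fun_pow 2, Fin.sum_univ_four]
  have key : ∀ (l : Fin 4) (u : ℤ → T3 → ℝ) (r : Fin k × ℤ → ℝ), (∀ m, Continuous (u m)) →
      (∀ m m', ∫ t, u m t * u m' t ∂tm = if m = m' then 1 / 2 else 0) →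
      (∀ θ, DD P (fun y => ∑ i, a i * fam P φ k i y) l (pr P (Phi P (x, θ)))
        = ∑ j ∈ Finset.univ ×ˢ S, r j * u (idx P j) (co θ)) →
      fib P (fun y => DD P (fun y => ∑ i, a i * fam P φ k i y) l y ^ 2) x
        = ∑ j ∈ Finset.univ ×ˢ S, r j ^ 2 / 2 := by
    intro l u r hu ho h
    rw [← gram _ hi hu ho r, fib]
    refine integral_congr_ae (Eventually.of_forall fun t => ?_)
    obtain ⟨θ, rfl⟩ := isOpenQuotientMap_co.surjective t
    simp only [io_co, h]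
  have hC : ∀ m, Continuous (Cc (kv m)) := fun m => continuous_Cc _
  have hS' : ∀ m, Continuous (Ss (kv m)) := fun m => continuous_Ss _
  rw [key 0 (fun m => Cc (kv m)) (fun j => a (Fin.succ j.1) * deriv φ (x - idx P j * P.τ)) hC
      integral_CC,
    key 1 (fun m => Ss (kv m)) (fun j => -(a (Fin.succ j.1) * φ (x - idx P j * P.τ) *
      (Real.exp (-(P.a * x)) * (kap P * s1 (nu (idx P j)))))) hS' integral_SS,
    key 2 (fun m => Ss (kv m)) (fun j => a (Fin.succ j.1) * φ (x - idx P j * P.τ) *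
      (Real.exp (P.a * x) * (kap P * s2 (nu (idx P j))))) hS' integral_SS,
    key 3 (fun m => Ss (kv m)) (fun _ => 0) hS' integral_SS]
  · rw [← Finset.sum_add_distrib, ← Finset.sum_add_distrib, ← Finset.sum_add_distrib]
    refine Finset.sum_congr rfl fun j _ => ?_
    have := WW_shift (P := P) x (idx P j)
    linear_combination (a (Fin.succ j.1) ^ 2 * φ (x - idx P j * P.τ) ^ 2 / 2) * this
  all_goals
    intro θ
    rw [DD_comb h1 hs hk hS a (by rw [Phi_0]; exact hx'), Finset.mul_sum]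
    refine Finset.sum_congr rfl fun j _ => ?_
    simp only [cos_ph, sin_ph, Phi_0]
    simp [ev]
    try ring

include hk hS in
theorem sum_unfold {G : ℝ → ℝ} (hG : Continuous G) (hG' : ∀ x, R ≤ |x| → G x = 0) :
    ∫ x in (0 : ℝ)..P.L, ∑ j ∈ Finset.univ ×ˢ S, a (Fin.succ j.1) ^ 2 * G (x - idx P j * P.τ) / 2
      = (∑ i : Fin k, a i.succ ^ 2) * (∫ x, G x) / 2 := by
  rw [intervalIntegral.integral_finsetSum fun j _ => Continuous.intervalIntegrable (by fun_prop) _ _,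
    Finset.sum_product, Finset.sum_mul, Finset.sum_div]
  refine Finset.sum_congr rfl fun i _ => ?_
  rw [← unfold_sum hG P.L_pos hG' ((i : ℕ) * P.τ) S fun q hq x hx =>
    hS q hq i (i.2.trans_le hk) x (by rw [abs_of_nonneg hx.1]; linarith [hx.2]),
    Finset.mul_sum, Finset.sum_div]
  refine Finset.sum_congr rfl fun q _ => ?_
  rw [intervalIntegral.integral_div, intervalIntegral.integral_const_mul]
  congr 3
  funext x
  congr 1
  rw [idx, Par.L]; push_cast; ring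

end Comb

theorem exists_support {φ : ℝ → ℝ} (h2 : HasCompactSupport φ) :
    ∃ R, (∀ x, R ≤ |x| → φ x = 0) ∧ ∀ x, R ≤ |x| → deriv φ x = 0 := by
  obtain ⟨R, -, hR⟩ := h2.exists_pos_le_norm
  obtain ⟨R', -, hR'⟩ := h2.deriv.exists_pos_le_norm
  exact ⟨max R R', fun x hx => hR x ((le_max_left _ _).trans hx),
    fun x hx => hR' x ((le_max_right _ _).trans hx)⟩

theorem integrals_comb (h1 : ContDiff ℝ 1 φ) (h2 : HasCompactSupport φ) {k : ℕ} (hk : k ≤ P.n) :
    (∀ i, ContMDiff (𝓡 4) 𝓘(ℝ, ℝ) 1 (fam P φ k i)) ∧ ∀ a : Fin (k + 1) → ℝ,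
      ∫ y, (∑ i, a i * fam P φ k i y) ^ 2 ∂mu P
        = JJ P * (P.L * a 0 ^ 2 + (∑ i : Fin k, a i.succ ^ 2) * (∫ x, φ x ^ 2) / 2) ∧
      ∫ y, gradSq (RM P) (fun y => ∑ i, a i * fam P φ k i y) y ∂mu P
        = JJ P * ((∑ i : Fin k, a i.succ ^ 2) * en P.a (eps P) φ / 2) := by
  obtain ⟨R, hs, hs'⟩ := exists_support h2
  obtain ⟨S, hS⟩ := exists_fin P R (P.L + 1)
  refine ⟨contMDiff_fam h1 hs hk, fun a => ?_⟩
  have hm := contMDiff_comb (contMDiff_fam h1 hs hk) a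
  have hc := continuous_DD hm
  have c0 := h1.continuous
  have c1 := h1.continuous_deriv le_rfl
  have c2 := continuous_WW P.a
  constructor
  · rw [integral_mu (hm.continuous.fun_pow 2), intervalIntegral.integral_congr
      (g := fun x => a 0 ^ 2 + ∑ j ∈ Finset.univ ×ˢ S,
        a (Fin.succ j.1) ^ 2 * φ (x - idx P j * P.τ) ^ 2 / 2) fun x hx =>
        fib_sq_comb hs hk hS a (by rwa [uIcc_of_le P.L_pos.le] at hx),
      intervalIntegral.integral_add (continuous_const.intervalIntegrable _ _)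
        (Continuous.intervalIntegrable (by fun_prop) _ _),
      sum_unfold hk hS a (G := fun x => φ x ^ 2) (by fun_prop) fun x hx => by simp [hs x hx]]
    simp
  · simp only [gradSq_RM]
    rw [integral_mu (by fun_prop), intervalIntegral.integral_congr fun x hx =>
        fib_grad_comb h1 hs hk hS a (by rwa [uIcc_of_le P.L_pos.le] at hx),
      sum_unfold hk hS a (G := fun x => deriv φ x ^ 2 + eps P * (φ x ^ 2 * WW P.a x)) (by fun_prop)
        fun x hx => by simp [hs x hx, hs' x hx],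
      integral_add (integrable_sq c1 h2.deriv) ((integrable_sq_mul c0 h2 c2).const_mul _),
      integral_const_mul, en]

end Pool.Agent.H361Z.Sol
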