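import Mathlib
import Pool.Agent.H361Z.Sol.Up

set_option autoImplicit false

open MeasureTheory Set Filter
open scoped Topology Manifold ContDiff Real ENNReal

namespace Pool.Agent.H361Z.Sol

variable {P : Par}

instance : IsFiniteMeasure (mu P) := ⟨by rw [mu_univ]; exact ENNReal.ofReal_lt_top⟩

theorem integral_sq_pos {f : MM P → ℝ} (hf : Continuous f) (h : f ≠ 0) :
    0 < ∫ y, f y ^ 2 ∂mu P := by
  obtain ⟨y, hy⟩ := Function.ne_iff.1 h
  obtain ⟨x₀, hx₀, t, rfl⟩ := exists_io P y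
  have hc : Continuous fun y => f y ^ 2 := hf.fun_pow 2
  rw [integral_mu hc]
  refine mul_pos (JJ_pos P) ?_
  have h0 : ∀ x, 0 ≤ fib P (fun y => f y ^ 2) x := fun x => integral_nonneg fun t => sq_nonneg _
  have h1 : 0 < fib P (fun y => f y ^ 2) x₀ :=
    (hc.comp (continuous_io_right x₀)).integral_pos_of_hasCompactSupport_nonneg_nonzero
      (HasCompactSupport.of_compactSpace _) (fun t => sq_nonneg _) (x := t) (pow_ne_zero 2 hy)
  have h2 := intervalIntegral.integral_lt_integral_of_continuousOn_of_le_of_exists_lt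
    (f := fun _ => (0 : ℝ)) (g := fib P (fun y => f y ^ 2)) P.L_pos continuousOn_const
    (continuous_fib hc).continuousOn (fun x _ => h0 x) ⟨x₀, hx₀, h1⟩
  simpa using h2

theorem exists_ker {k : ℕ} (hk : 1 ≤ k) (c : Fin (k + 1) → ℝ) :
    ∃ a : Fin (k + 1) → ℝ, a ≠ 0 ∧ ∑ i, a i * c i = 0 := by
  have h01 : (0 : Fin (k + 1)) ≠ Fin.last k := by
    intro h; have := congrArg Fin.val h; simp at this; omega
  by_cases h : c 0 = 0
  · refine ⟨Pi.single 0 1, fun h1 => by simpa using congrFun h1 0, ?_⟩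
    simp [Pi.single_apply, h]
  · refine ⟨Pi.single 0 (c (Fin.last k)) - Pi.single (Fin.last k) (c 0), fun h1 => h ?_, ?_⟩
    · simpa [Pi.single_apply, h01.symm] using congrFun h1 (Fin.last k)
    · simp only [Pi.sub_apply, Pi.single_apply, sub_mul, Finset.sum_sub_distrib]
      simp [mul_comm]

theorem eig_eq (hδ : lam0 P.a (eps P) ≤ (2 * π / P.δ) ^ 2) (hL : lam0 P.a (eps P) * P.L ^ 2 ≤ 1)
    {k : ℕ} (h1 : 1 ≤ k) (hk : k ≤ P.n) : eig (RM P) (mu P) k = lam0 P.a (eps P) := by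
  have hl : 0 < lam0 P.a (eps P) := lam0_pos eps_pos
  have hJ := JJ_pos P
  have hL0 := P.L_pos
  unfold eig
  set A := {r | ∃ f : Fin (k + 1) → MM P → ℝ, LinearIndependent ℝ f ∧
    (∀ i, ContMDiff (𝓡 4) 𝓘(ℝ, ℝ) 1 (f i)) ∧
    ∀ a : Fin (k + 1) → ℝ, ∫ x, gradSq (RM P) (fun y => ∑ i, a i * f i y) x ∂mu P ≤
      r * ∫ x, (∑ i, a i * f i x) ^ 2 ∂mu P} with hA
  have lo : ∀ r ∈ A, lam0 P.a (eps P) ≤ r := by
    rintro r ⟨f, hli, hf, hr⟩
    obtain ⟨a, ha, ha'⟩ := exists_ker h1 fun i => ∫ y, f i y ∂mu P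
    have hm := contMDiff_comb hf a
    have hne : (fun y => ∑ i, a i * f i y) ≠ 0 := by
      intro h
      refine ha (funext (Fintype.linearIndependent_iff.1 hli a ?_))
      rw [← h]; funext y; simp
    have h0 : ∫ y, ∑ i, a i * f i y ∂mu P = 0 := by
      rw [integral_finsetSum _ fun i _ => ((hf i).continuous.integrable_of_hasCompactSupport
        (HasCompactSupport.of_compactSpace _)).const_mul _]
      simp only [integral_const_mul, ha']
    exact le_of_mul_le_mul_right ((lower hδ hL hm h0).trans (hr a))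
      (integral_sq_pos hm.continuous hne)
  have up : ∀ r, lam0 P.a (eps P) < r → r ∈ A := by
    intro r hr
    obtain ⟨φ, p1, p2, p3, p4⟩ := exists_of_lam0_lt hr
    obtain ⟨q1, q2⟩ := integrals_comb (P := P) p1 p2 hk
    refine ⟨fam P φ k, Fintype.linearIndependent_iff.2 fun a ha => ?_, q1, fun a => ?_⟩
    · have e := (q2 a).1
      have e1 : ∀ y, ∑ i, a i * fam P φ k i y = 0 := fun y => by
        simpa using congrFun ha y
      simp only [e1] at e
      have e2 : P.L * a 0 ^ 2 + (∑ i : Fin k, a i.succ ^ 2) * (∫ x, φ x ^ 2) / 2 = 0 := by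
        simpa [hJ.ne'] using e
      have n1 : 0 ≤ P.L * a 0 ^ 2 := by positivity
      have n2 : 0 ≤ ∑ i : Fin k, a i.succ ^ 2 := Finset.sum_nonneg fun i _ => sq_nonneg _
      have z1 : a 0 ^ 2 = 0 := by nlinarith [mul_nonneg n2 p3.le, sq_nonneg (a 0)]
      have z2 : ∑ i : Fin k, a i.succ ^ 2 = 0 := by nlinarith
      rw [Finset.sum_eq_zero_iff_of_nonneg fun i _ => sq_nonneg _] at z2
      intro i
      refine Fin.cases (pow_eq_zero_iff two_ne_zero |>.1 z1) (fun i => ?_) i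
      exact pow_eq_zero_iff two_ne_zero |>.1 (z2 i (Finset.mem_univ _))
    · rw [(q2 a).1, (q2 a).2, mul_left_comm]
      refine mul_le_mul_of_nonneg_left ?_ hJ.le
      have n1 : 0 ≤ r * (P.L * a 0 ^ 2) := mul_nonneg (hl.trans hr).le (by positivity)
      have n2 : 0 ≤ ∑ i : Fin k, a i.succ ^ 2 := Finset.sum_nonneg fun i _ => sq_nonneg _
      nlinarith [mul_le_mul_of_nonneg_left p4 n2]
  refine le_antisymm (le_of_forall_gt_imp_ge_of_dense fun r hr => csInf_le ⟨_, lo⟩ (up r hr))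
    (le_csInf ⟨_, up _ (lt_add_one _)⟩ lo)

theorem exists_par {a V : ℝ} (ha : 0 < a) (hV : 0 < V) {n : ℕ} (hn : 0 < n) :
    ∃ P : Par, P.a = a ∧ P.n = n ∧ JJ P * P.L = V ∧
      lam0 P.a (eps P) ≤ (2 * π / P.δ) ^ 2 ∧ lam0 P.a (eps P) * P.L ^ 2 ≤ 1 := by
  set L : ℝ := n * (ell / a) with hL
  have hL0 : 0 < L := mul_pos (Nat.cast_pos.2 hn) (div_pos ell_pos ha)
  obtain ⟨ε₀, hε₀, h⟩ := lam0_small a (η := (L ^ 2)⁻¹) (by positivity)
  have hs := sqrt2_pos
  have hpi := Real.pi_gt_three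
  set c : ℝ := π ^ 2 / ε₀ + V / L ^ 2 + 1 with hc
  have hc1 : 1 ≤ c := by rw [hc]; have : 0 ≤ π ^ 2 / ε₀ + V / L ^ 2 := by positivity
                         linarith
  have hc2 : c ≤ c ^ 2 := by nlinarith
  set P : Par := ⟨a, c, V / (2 * √2 * c ^ 2 * L), n, ha, by positivity, by positivity, hn⟩ with hP
  have hPL : P.L = L := rfl
  have h1 : lam0 P.a (eps P) ≤ (L ^ 2)⁻¹ := by
    refine h _ eps_pos.le ?_
    change π ^ 2 / (2 * c ^ 2) ≤ ε₀
    rw [div_le_iff₀ (by positivity)]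
    have h2 : π ^ 2 / ε₀ ≤ c := by rw [hc]; have : 0 ≤ V / L ^ 2 := by positivity
                                   linarith
    rw [div_le_iff₀ hε₀] at h2
    nlinarith
  refine ⟨P, rfl, rfl, ?_, h1.trans ?_, ?_⟩
  · change 2 * √2 * c ^ 2 * (V / (2 * √2 * c ^ 2 * L)) * L = V
    field_simp
  · change (L ^ 2)⁻¹ ≤ (2 * π / (V / (2 * √2 * c ^ 2 * L))) ^ 2
    rw [← inv_pow]
    refine pow_le_pow_left₀ (by positivity) ?_ 2
    rw [le_div_iff₀ (by positivity), inv_mul_le_iff₀ hL0, div_le_iff₀ (by positivity)]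
    have h2 : V / L ^ 2 ≤ c := by rw [hc]; have : 0 ≤ π ^ 2 / ε₀ := by positivity
                                  linarith
    rw [div_le_iff₀ (by positivity)] at h2
    have h3 : (1 : ℝ) ≤ √2 := Real.one_le_sqrt.2 (by norm_num)
    have h4 : 1 ≤ 2 * π * (2 * √2) := by nlinarith
    calc V ≤ c ^ 2 * L ^ 2 := h2.trans (mul_le_mul_of_nonneg_right hc2 (sq_nonneg _))
      _ ≤ (2 * π * (2 * √2)) * (c ^ 2 * L ^ 2) := le_mul_of_one_le_left (by positivity) h4
      _ = _ := by ring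
  · rw [hPL]
    calc _ ≤ (L ^ 2)⁻¹ * L ^ 2 := mul_le_mul_of_nonneg_right h1 (sq_nonneg _)
      _ = 1 := inv_mul_cancel₀ (by positivity)

theorem main (κ V : ℝ) (hκ : 0 < κ) (hV : 0 < V) (k : ℕ) (hk : 1 ≤ k) (j : ℕ) :
    ∃ P : Par, RicciGE (RM P) (-(3 * κ)) ∧ mu P univ = ENNReal.ofReal V ∧
      0 < eig (RM P) (mu P) k ∧ (j : ℕ∞) ≤ mult (RM P) (mu P) k := by
  obtain ⟨P, ha, hn, hv, h1, h2⟩ := exists_par (Real.sqrt_pos.2 hκ) hV (n := k + j) (by omega)
  have e := eig_eq h1 h2 hk (by omega)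
  refine ⟨P, ricciGE_RM P ?_, by rw [mu_univ, hv], e ▸ lam0_pos eps_pos, ?_⟩
  · rw [ha, Real.sq_sqrt hκ.le]; linarith
  · have h3 : (Finset.Icc 1 j : Set ℕ) ⊆ {i | eig (RM P) (mu P) i = eig (RM P) (mu P) k} := by
      intro i hi
      rw [Finset.coe_Icc] at hi
      exact (eig_eq h1 h2 hi.1 (by have := hi.2; omega)).trans e.symm
    have h4 := encard_le_encard h3
    rw [encard_coe_eq_coe_finsetCard, Nat.card_Icc, Nat.add_sub_cancel] at h4
    exact h4

end Pool.Agent.H361Z.Sol
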